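import Pool.Agent.N164.RP.Loc

/-!
# Extension of specializations
-/

set_option autoImplicit false

open MvPolynomial
open scoped LinearAlgebra.Projectivization

namespace Pool.Agent.N164.RP

variable {ι : Type} {N : ℕ}

theorem exists_index (x : Pt N) : ∃ j, x.rep j ≠ 0 := by
  by_contra h
  push Not at h
  exact x.rep_nonzero (funext h)

theorem exists_chart (p : ι → Pt N) : ∃ a, InChart a p := by
  choose a ha using fun i => exists_index (p i)
  exact ⟨a, ha⟩

theorem exists_cons {m : ℕ} {K : Subfield ℂ} (x : Pt N) (u u' : Fin m → Pt N)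
    (h : u' ∈ Loc K u) : ∃ y : Pt N,
      (Fin.cons y u' : Fin (m + 1) → Pt N) ∈ Loc K (Fin.cons x u : Fin (m + 1) → Pt N) := by
  classical
  obtain ⟨a, ha'⟩ := exists_chart u'
  have ha : InChart a u := inChart_of_mem_Loc h ha'
  let f : PolyK K (Fin m) N →+* ℂ := (aeval (affine a u) : PolyK K (Fin m) N →ₐ[K] ℂ).toRingHom
  let g : PolyK K (Fin m) N →+* ℂ := (aeval (affine a u') : PolyK K (Fin m) N →ₐ[K] ℂ).toRingHom
  have hfg : RingHom.ker f.rangeRestrict ≤ RingHom.ker g := by
    intro P hP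
    have h1 : f P = 0 := congrArg Subtype.val (RingHom.mem_ker.1 hP)
    exact aeval_of_mem_Loc h ha' P h1
  let ψ : f.range →+* ℂ :=
    f.rangeRestrict.liftOfSurjective f.rangeRestrict_surjective ⟨g, hfg⟩
  have hψ : ∀ P, ψ (f.rangeRestrict P) = g P := fun P =>
    RingHom.liftOfRightInverse_comp_apply f.rangeRestrict _
      (Function.rightInverse_surjInv f.rangeRestrict_surjective) ⟨g, hfg⟩ P
  obtain ⟨b, hb, B, hAB, hB, φ, hφ⟩ := exists_ext_proj f.range ψ x.rep x.rep_nonzero
  have hφ' : ∀ P, φ ⟨f P, hAB ⟨P, rfl⟩⟩ = g P := by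
    intro P
    have h1 := hφ (f.rangeRestrict P)
    rw [hψ] at h1
    exact h1
  let w : Fin (N + 1) → ℂ := fun j => φ ⟨x.rep j / x.rep b, hB j⟩
  have hwb : w b = 1 := by
    have h1 : (⟨x.rep b / x.rep b, hB b⟩ : B) = 1 := Subtype.ext (div_self hb)
    simp only [w, h1, map_one]
  have hw : w ≠ 0 := fun h0 => by
    have := congrFun h0 b
    rw [hwb] at this
    exact one_ne_zero this
  let y : Pt N := Projectivization.mk ℂ w hw
  have hy : IsCoord w y := ⟨hw, rfl⟩
  have hyb : ∀ j, y.rep j / y.rep b = w j := by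
    intro j
    have h1 := affine_of_isCoord (a := fun _ : Unit => b) (p := fun _ : Unit => y)
      (v := fun _ => w) (fun _ => hy) ((), j)
    simp only [affine, hwb, div_one] at h1
    exact h1.symm
  have hyb0 : y.rep b ≠ 0 := by
    intro h0
    have := hyb b
    rw [h0, div_zero, hwb] at this
    exact zero_ne_one this
  refine ⟨y, ?_⟩
  let a' : Fin (m + 1) → Fin (N + 1) := Fin.cons b a
  have hc1 : InChart a' (Fin.cons x u : Fin (m + 1) → Pt N) := by
    intro i
    refine Fin.cases ?_ (fun i => ?_) i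
    · exact hb
    · exact ha i
  have hc2 : InChart a' (Fin.cons y u' : Fin (m + 1) → Pt N) := by
    intro i
    refine Fin.cases ?_ (fun i => ?_) i
    · exact hyb0
    · exact ha' i
  have hmem : ∀ s : Fin (m + 1) × Fin (N + 1),
      affine a' (Fin.cons x u : Fin (m + 1) → Pt N) s ∈ B := by
    rintro ⟨i, j⟩
    refine Fin.cases ?_ (fun i => ?_) i
    · exact hB j
    · refine hAB ⟨X (i, j), ?_⟩
      exact aeval_X _ _
  have hval : ∀ s : Fin (m + 1) × Fin (N + 1),
      φ ⟨affine a' (Fin.cons x u : Fin (m + 1) → Pt N) s, hmem s⟩ =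
        affine a' (Fin.cons y u' : Fin (m + 1) → Pt N) s := by
    rintro ⟨i, j⟩
    refine Fin.cases ?_ (fun i => ?_) i
    · exact (hyb j).symm
    · have h1 := hφ' (X (i, j))
      have h2 : f (X (i, j)) = affine a u (i, j) := aeval_X _ _
      have h3 : g (X (i, j)) = affine a u' (i, j) := aeval_X _ _
      rw [h3] at h1
      refine Eq.trans ?_ h1
      congr 1
      exact Subtype.ext h2.symm
  have hK : ∀ k : K, (k : ℂ) ∈ B := fun k => hAB ⟨C k, aeval_C _ _⟩
  have hKφ : ∀ k : K, φ ⟨k, hK k⟩ = k := by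
    intro k
    have h1 := hφ' (C k)
    have h2 : f (C k) = k := aeval_C _ _
    have h3 : g (C k) = k := aeval_C _ _
    rw [h3] at h1
    refine Eq.trans ?_ h1
    congr 1
    exact Subtype.ext h2.symm
  let κ : K →+* B :=
    { toFun := fun k => ⟨k, hK k⟩
      map_one' := rfl
      map_mul' := fun _ _ => rfl
      map_zero' := rfl
      map_add' := fun _ _ => rfl }
  apply mem_Loc_of_aeval hc1 hc2
  intro P hP
  have h1 : B.subtype (eval₂ κ (fun s => (⟨_, hmem s⟩ : B)) P) =
      aeval (affine a' (Fin.cons x u : Fin (m + 1) → Pt N)) P := by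
    rw [hom_eval₂, aeval_def]
    rfl
  have h2 : eval₂ κ (fun s => (⟨_, hmem s⟩ : B)) P = 0 := by
    rw [hP] at h1
    exact Subtype.ext h1
  have h3 := hom_eval₂ P κ φ (fun s => (⟨_, hmem s⟩ : B))
  rw [h2, map_zero] at h3
  rw [aeval_def]
  have h4 : φ.comp κ = algebraMap K ℂ := RingHom.ext hKφ
  have h5 : (fun s => φ (⟨_, hmem s⟩ : B)) =
      affine a' (Fin.cons y u' : Fin (m + 1) → Pt N) := funext hval
  rw [h4, h5] at h3
  exact h3.symm

end Pool.Agent.N164.RP
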