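import Mathlib

/-!
# Closed subsets of products of projective spaces, dimension, and rational equivalence of zero-cycles

All varieties are over `ℂ`. No theorem is proved in this file.
-/

set_option autoImplicit false

open MvPolynomial
open scoped LinearAlgebra.Projectivization

namespace Pool.Agent.N164.RP

/-! ### Closed subsets of products of projective spaces -/

/-- The points of the projective space `P^N` over `ℂ`. -/
abbrev Pt (N : ℕ) : Type := ℙ ℂ (Fin (N + 1) → ℂ)

/-- `v` is a vector of homogeneous coordinates of the point `p`. -/
def IsCoord {N : ℕ} (v : Fin (N + 1) → ℂ) (p : Pt N) : Prop :=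
  ∃ h : v ≠ 0, Projectivization.mk ℂ v h = p

/-- Polynomials in the homogeneous coordinates `(i, j)`, `0 ≤ j ≤ N`, of the points `p i` of a tuple
`p` in `(P^N)^ι`. -/
abbrev Poly (ι : Type) (N : ℕ) : Type := MvPolynomial (ι × Fin (N + 1)) ℂ

variable {ι : Type} {N : ℕ}

/-- The polynomial `F` vanishes at the point `p` of `(P^N)^ι`: it is zero for all choices of the
homogeneous coordinates of the points `p i`. (Equivalently, all the multihomogeneous components of
`F` are zero at `p`.) -/
def Vanishes (F : Poly ι N) (p : ι → Pt N) : Prop :=
  ∀ v : ι → Fin (N + 1) → ℂ, (∀ i, IsCoord (v i) (p i)) → eval (fun s => v s.1 s.2) F = 0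

/-- `Z` is a (Zariski) closed subset of `(P^N)^ι`. -/
def IsClosedSet (Z : Set (ι → Pt N)) : Prop :=
  ∃ S : Set (Poly ι N), Z = {p | ∀ F ∈ S, Vanishes F p}

/-- The polynomial `F` vanishes on the set `Z`. -/
def VanishesOn (F : Poly ι N) (Z : Set (ι → Pt N)) : Prop := ∀ p ∈ Z, Vanishes F p

/-- The point `p` is in the affine chart `a`: for all `i` the homogeneous coordinate of `p i` with
the index `a i` is not zero. -/
def InChart (a : ι → Fin (N + 1)) (p : ι → Pt N) : Prop := ∀ i, (p i).rep (a i) ≠ 0

/-- The affine coordinates of a point `p` in the chart `a`, the quotients of the homogeneous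
coordinates with the indices `(i, j)` and `(i, a i)`. -/
noncomputable def affine (a : ι → Fin (N + 1)) (p : ι → Pt N) (s : ι × Fin (N + 1)) : ℂ :=
  (p s.1).rep s.2 / (p s.1).rep (a s.1)

/-- The closed set `Z` has dimension at least `r`: some `r` of the affine coordinates in some chart
`a` are algebraically independent on `Z`, that is, no nonzero polynomial `P` in these coordinates is
zero on the part of `Z` in the chart. -/
def DimGE (Z : Set (ι → Pt N)) (r : ℕ) : Prop :=
  ∃ (a : ι → Fin (N + 1)) (s : Finset (ι × Fin (N + 1))), s.card = r ∧
    ∀ P : MvPolynomial s ℂ, P ≠ 0 → ∃ p ∈ Z, InChart a p ∧ eval (fun t : s => affine a p t) P ≠ 0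

/-- A subset `X` of `P^N` as a subset of `(P^N)^1`. -/
def one (X : Set (Pt N)) : Set (Unit → Pt N) := {p | p () ∈ X}

/-- `X ⊆ P^N` is an irreducible projective variety of dimension `d`: it is closed and nonempty, the
product of two polynomials vanishes on `X` only if one of them does, and `d` is the dimension. -/
structure IsVariety (X : Set (Pt N)) (d : ℕ) : Prop where
  closed : IsClosedSet (one X)
  nonempty : X.Nonempty
  irreducible : ∀ F G : Poly Unit N, VanishesOn (F * G) (one X) →
    VanishesOn F (one X) ∨ VanishesOn G (one X)
  dim_ge : DimGE (one X) d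
  dim_lt : ¬ DimGE (one X) (d + 1)

/-! ### Zero-cycles and rational equivalence -/

/-- Zero-cycles on `P^N`. -/
abbrev Cycle (N : ℕ) : Type := Pt N →₀ ℤ

/-- The zero-cycle `z` is a zero-cycle on `X` (is supported on `X`). -/
def IsOn (z : Cycle N) (X : Set (Pt N)) : Prop := ∀ p ∈ z.support, p ∈ X

/-- The zero-cycle of a point. -/
noncomputable def pt (p : Pt N) : Cycle N := Finsupp.single p 1

section FunctionField

variable {K : Type} [Field K] [Algebra ℂ K]

/-- `K` is a function field of one variable over `ℂ` (the field of rational functions of a smooth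
projective curve). -/
def IsFunctionField (K : Type) [Field K] [Algebra ℂ K] : Prop :=
  ∃ t : K, Transcendental ℂ t ∧ FiniteDimensional (IntermediateField.adjoin ℂ {t}) K

/-- The vector `x` gives a point of `X` with values in the field `K` of rational functions of a
curve `D`, that is, a morphism `D → X`: all polynomials which vanish on `X` vanish at `x`. -/
def IsPointOf (x : Fin (N + 1) → K) (X : Set (Pt N)) : Prop :=
  x ≠ 0 ∧ ∀ F : Poly Unit N, VanishesOn F (one X) → aeval (fun s => x s.2) F = 0

/-- `O` is the local ring of a point of the smooth projective curve with the function field `K`. -/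
def IsPlace (O : ValuationSubring K) : Prop := O ≠ ⊤ ∧ ∀ c : ℂ, algebraMap ℂ K c ∈ O

/-- `u` is a uniformizer: it generates the maximal ideal of `O`, the set of nonunits. -/
def IsUniformizer (O : ValuationSubring K) (u : K) : Prop :=
  u ≠ 0 ∧ ∀ y : K, y ∈ O.nonunits ↔ y / u ∈ O

/-- The order of the function `g ≠ 0` at the point with the local ring `O` is `n`: the quotient
of `g` and `u ^ n` is a unit of `O` for a uniformizer `u`. -/
def HasOrder (O : ValuationSubring K) (g : K) (n : ℤ) : Prop :=
  ∃ u : K, IsUniformizer O u ∧ g / u ^ n ∈ O ∧ u ^ n / g ∈ O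

/-- The morphism from the curve to `P^N` given by the vector `x` maps the point with the local ring
`O` to the point `p`: if the homogeneous coordinates `x` are multiplied by a suitable function, then
their values at the point are homogeneous coordinates of `p`. -/
def HasImage (O : ValuationSubring K) (x : Fin (N + 1) → K) (p : Pt N) : Prop :=
  ∃ (c : K) (v : Fin (N + 1) → ℂ), IsCoord v p ∧ ∀ j, c * x j - algebraMap ℂ K (v j) ∈ O.nonunits

end FunctionField

/-- The zero-cycle `z` is the push-forward to `X` of the divisor of a rational function `g ≠ 0` on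
a smooth projective curve `D`, with the function field `K`, under a morphism `D → X`, given by the
`K`-point `x` of `X`. Here `T` is a finite set of points of `D` which contains all the zeros and
poles of `g`, `n O` is the order of `g` at the point `O`, and `c O` is the image of the point `O`. -/
def IsDivisorOfFunction (X : Set (Pt N)) (z : Cycle N) : Prop :=
  ∃ (K : Type) (_ : Field K) (_ : Algebra ℂ K) (x : Fin (N + 1) → K) (g : K)
    (T : Finset (ValuationSubring K)) (n : ValuationSubring K → ℤ) (c : ValuationSubring K → Pt N),
    IsFunctionField K ∧ IsPointOf x X ∧ g ≠ 0 ∧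
    (∀ O ∈ T, IsPlace O ∧ HasOrder O g (n O) ∧ HasImage O x (c O)) ∧
    (∀ O : ValuationSubring K, IsPlace O → O ∉ T → HasOrder O g 0) ∧
    z = ∑ O ∈ T, n O • pt (c O)

/-- The group of the zero-cycles on `X` which are rationally equivalent to zero. It is generated by
the push-forwards of the divisors of the rational functions on curves in `X` (on the normalisations
of the curves). -/
noncomputable def Rat (X : Set (Pt N)) : AddSubgroup (Cycle N) :=
  AddSubgroup.closure {z | IsDivisorOfFunction X z}

end Pool.Agent.N164.RP
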