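import Pool.Agent.N164.RP.Rank

/-!
# Embeddings of countable fields into `ℂ`, independence of families
-/

set_option autoImplicit false

open MvPolynomial Set

namespace Pool.Agent.N164.RP

/-- A countable extension of a countable subfield of `ℂ` embeds into `ℂ`. -/
theorem exists_embedding (K : Subfield ℂ) [Countable K] (L : Type) [Field L] [Algebra K L]
    [Countable L] : Nonempty (L →ₐ[K] ℂ) := by
  classical
  obtain ⟨ι, v, hv⟩ := exists_isTranscendenceBasis' K L
  obtain ⟨κ, w, hw⟩ := exists_isTranscendenceBasis' K ℂ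
  have hι : Countable ι := hv.1.injective.countable
  have hκ : Uncountable κ := by
    by_contra h
    rw [not_uncountable_iff] at h
    have h1 := IsAlgClosed.cardinal_le_max_transcendence_basis w hw
    have h2 : Cardinal.mk K ≤ Cardinal.aleph0 := Cardinal.mk_le_aleph0_iff.2 inferInstance
    have h3 : Cardinal.mk κ ≤ Cardinal.aleph0 := Cardinal.mk_le_aleph0_iff.2 h
    have h4 : Cardinal.mk ℂ ≤ Cardinal.aleph0 := by
      have h5 := h1.trans (max_le (max_le (Cardinal.lift_le.2 h2) (Cardinal.lift_le.2 h3)) (by simp))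
      simpa using h5
    rw [Cardinal.mk_complex] at h4
    exact Cardinal.aleph0_lt_continuum.not_ge h4
  obtain ⟨e⟩ : Nonempty (ι ↪ κ) := by
    have h1 : Cardinal.lift.{0} (Cardinal.mk ι) ≤ Cardinal.lift.{0} (Cardinal.mk κ) := by
      have h2 : Cardinal.mk ι ≤ Cardinal.aleph0 := Cardinal.mk_le_aleph0_iff.2 hι
      have h3 : Cardinal.aleph0 ≤ Cardinal.mk κ := Cardinal.aleph0_le_mk_iff.2 inferInstance
      simpa using h2.trans h3
    exact Cardinal.lift_mk_le'.1 h1
  have hwe : AlgebraicIndependent K (w ∘ e) := hw.1.comp e e.injective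
  let A := Algebra.adjoin K (range v)
  let g : A →ₐ[K] ℂ := (aeval (w ∘ e)).comp hv.1.aevalEquiv.symm.toAlgHom
  have hg : Function.Injective g := by
    have h1 : Function.Injective (aeval (w ∘ e) : MvPolynomial ι K →ₐ[K] ℂ) := hwe
    exact h1.comp hv.1.aevalEquiv.symm.injective
  let : Algebra A ℂ := g.toRingHom.toAlgebra
  have : FaithfulSMul A ℂ := (faithfulSMul_iff_algebraMap_injective _ _).2 hg
  have : Algebra.IsAlgebraic A L := hv.isAlgebraic
  let φ : L →ₐ[A] ℂ := IsAlgClosed.lift
  refine ⟨{ φ.toRingHom with commutes' := ?_ }⟩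
  intro k
  have h1 : algebraMap K L k = algebraMap A L (algebraMap K A k) := rfl
  have h2 : φ (algebraMap K L k) = algebraMap A ℂ (algebraMap K A k) := by
    rw [h1]; exact φ.commutes _
  refine Eq.trans h2 ?_
  exact g.commutes k

/-- A prime ideal of a countable algebra is the kernel of a homomorphism into `ℂ`. -/
theorem exists_hom_ker {K : Subfield ℂ} [Countable K] {R : Type} [CommRing R] [Algebra K R]
    [Countable R] (I : Ideal R) [hI : I.IsPrime] :
    ∃ ψ : R →ₐ[K] ℂ, ∀ P, ψ P = 0 ↔ P ∈ I := by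
  have hcA : Countable (R ⧸ I) := Quotient.countable
  have hcL : Countable (FractionRing (R ⧸ I)) := by
    have h1 : Function.Surjective (fun x : (R ⧸ I) × nonZeroDivisors (R ⧸ I) =>
        IsLocalization.mk' (FractionRing (R ⧸ I)) x.1 x.2) := fun z => by
      obtain ⟨x, y, h⟩ := IsLocalization.exists_mk'_eq (nonZeroDivisors (R ⧸ I)) z
      exact ⟨(x, y), h⟩
    exact h1.countable
  obtain ⟨φ⟩ := exists_embedding K (FractionRing (R ⧸ I))
  refine ⟨φ.comp ((IsScalarTower.toAlgHom K (R ⧸ I) (FractionRing (R ⧸ I))).comp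
    (Ideal.Quotient.mkₐ K I)), fun P => ?_⟩
  rw [AlgHom.comp_apply, map_eq_zero_iff φ φ.injective, AlgHom.comp_apply,
    IsScalarTower.coe_toAlgHom', map_eq_zero_iff _ (IsFractionRing.injective _ _),
    Ideal.Quotient.mkₐ_eq_mk, Ideal.Quotient.eq_zero_iff_mem]

theorem countable_mvPolynomial {R σ : Type} [CommRing R] [Countable R] [Countable σ] :
    Countable (MvPolynomial σ R) := by
  rw [← Cardinal.mk_le_aleph0_iff]
  refine MvPolynomial.cardinalMk_le_max.trans ?_
  simp

theorem exists_independent {K : Subfield ℂ} {σ : Type} [Finite σ] {c : σ → ℂ} {n : ℕ}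
    (h : (n : ℕ∞) ≤ rk K (range c)) :
    ∃ s : Finset σ, s.card = n ∧ AlgebraicIndependent K (fun t : s => c t) := by
  classical
  obtain ⟨T, hT, hind, hcard⟩ := Matroid.le_eRk_iff.1 h
  have hfin : T.Finite := (Set.finite_range c).subset hT
  have : Fintype T := hfin.fintype
  choose j hj using fun t : T => hT t.2
  have hinj : Function.Injective j := by
    intro a b hab
    apply Subtype.ext
    rw [← hj a, ← hj b, hab]
  obtain ⟨s, hs1, hs2⟩ : ∃ s : Finset σ, s.card = Fintype.card T ∧ ∀ t ∈ s, ∃ a : T, j a = t := by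
    refine ⟨Finset.univ.image j, ?_, ?_⟩
    · rw [Finset.card_image_of_injective _ hinj, Finset.card_univ]
    · intro t ht
      obtain ⟨a, -, ha⟩ := Finset.mem_image.1 ht
      exact ⟨a, ha⟩
  refine ⟨s, ?_, ?_⟩
  · rw [hs1]
    have h1 : T.encard = Fintype.card T := by
      rw [← Set.coe_fintypeCard]
    rw [h1] at hcard
    exact_mod_cast hcard
  · have h1 : ∀ t : s, c t ∈ T := by
      rintro ⟨t, ht⟩
      obtain ⟨a, rfl⟩ := hs2 t ht
      have h2 : c (j a) = a := hj a
      rw [h2]
      exact a.2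
    let g : s → T := fun t => ⟨c t, h1 t⟩
    have h2 : Function.Injective g := by
      rintro ⟨t, ht⟩ ⟨t', ht'⟩ htt
      obtain ⟨a, rfl⟩ := hs2 t ht
      obtain ⟨a', rfl⟩ := hs2 t' ht'
      have h5 : c (j a) = c (j a') := congrArg Subtype.val htt
      have h6 : (a : ℂ) = a' := by rw [← hj a, ← hj a', h5]
      have h7 : a = a' := Subtype.ext h6
      subst h7
      rfl
    have h3 : AlgebraicIndependent K (fun t : T => (t : ℂ)) := hind
    have h4 : AlgebraicIndependent K ((fun t : T => (t : ℂ)) ∘ g) := h3.comp g h2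
    exact h4

theorem card_le_rk {K : Subfield ℂ} {σ : Type} {c : σ → ℂ} {s : Finset σ}
    (h : AlgebraicIndependent K (fun t : s => c t)) : (s.card : ℕ∞) ≤ rk K (range c) := by
  have h0 : AlgebraicIndepOn K id (range fun t : s => c t) := h.to_subtype_range
  have h1 : (M K).Indep (range fun t : s => c t) := h0
  have h3 : (range fun t : s => c t) ⊆ range c := by
    rintro _ ⟨t, rfl⟩
    exact ⟨t, rfl⟩
  have h2 := h1.encard_le_eRk_of_subset h3
  have h4 : (s.card : ℕ∞) ≤ (range fun t : s => c t).encard := by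
    have h5 := h.injective.encard_range
    simpa using h5
  exact h4.trans h2

end Pool.Agent.N164.RP
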