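import Mathlib

/-!
# Extension of homomorphisms into algebraically closed fields to projective coordinates
-/

set_option autoImplicit false

namespace Pool.Agent.N164.RP

open IsLocalRing

universe u v w

/-- A homomorphism of a local ring to an algebraically closed field whose kernel is the maximal
ideal extends to every algebra of finite type in which the maximal ideal does not generate the
unit ideal. -/
theorem exists_ext_of_local {R : Type u} {S : Type v} {Ω : Type w} [CommRing R] [IsLocalRing R]
    [CommRing S] [Algebra R S] [Algebra.FiniteType R S] [Field Ω] [IsAlgClosed Ω]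
    (ψ : R →+* Ω) (hψ : RingHom.ker ψ = maximalIdeal R)
    (h : (maximalIdeal R).map (algebraMap R S) ≠ ⊤) :
    ∃ φ : S →+* Ω, φ.comp (algebraMap R S) = ψ := by
  obtain ⟨M, hM, hle⟩ := Ideal.exists_le_maximal _ h
  have hle' : maximalIdeal R ≤ M.comap (algebraMap R S) := Ideal.map_le_iff_le_comap.1 hle
  let : Field (R ⧸ maximalIdeal R) := Ideal.Quotient.field _
  let : Field (S ⧸ M) := Ideal.Quotient.field _
  let : Algebra (R ⧸ maximalIdeal R) (S ⧸ M) := Ideal.Quotient.algebraQuotientOfLEComap hle'
  have : IsScalarTower R (R ⧸ maximalIdeal R) (S ⧸ M) :=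
    IsScalarTower.of_algebraMap_eq' rfl
  have : Algebra.FiniteType R (S ⧸ M) := inferInstance
  have : Algebra.FiniteType (R ⧸ maximalIdeal R) (S ⧸ M) :=
    Algebra.FiniteType.of_restrictScalars_finiteType R _ _
  have : Module.Finite (R ⧸ maximalIdeal R) (S ⧸ M) :=
    finite_of_finite_type_of_isJacobsonRing _ _
  let : Algebra (R ⧸ maximalIdeal R) Ω := (Ideal.Quotient.lift (maximalIdeal R) ψ (fun a ha => by
    rw [← hψ] at ha; exact ha)).toAlgebra
  have : Algebra.IsAlgebraic (R ⧸ maximalIdeal R) (S ⧸ M) := inferInstance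
  let g : (S ⧸ M) →ₐ[R ⧸ maximalIdeal R] Ω := IsAlgClosed.lift
  refine ⟨g.toRingHom.comp (Ideal.Quotient.mk M), ?_⟩
  ext r
  have h1 := g.commutes (Ideal.Quotient.mk (maximalIdeal R) r)
  exact h1

/-- Extension of a homomorphism into an algebraically closed field to the ratios of projective
coordinates. -/
theorem exists_ext_proj {K : Type u} {Ω : Type v} [Field K] [Field Ω] [IsAlgClosed Ω]
    (A : Subring K) (ψ : A →+* Ω) {n : ℕ} (x : Fin (n + 1) → K) (hx : x ≠ 0) :
    ∃ a, x a ≠ 0 ∧ ∃ (B : Subring K) (hAB : A ≤ B) (_ : ∀ j, x j / x a ∈ B) (φ : B →+* Ω),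
      ∀ y : A, φ ⟨y, hAB y.2⟩ = ψ y := by
  classical
  have hp : (RingHom.ker ψ).IsPrime := RingHom.ker_isPrime ψ
  obtain ⟨V, hV⟩ := (LocalSubring.ofPrime A (RingHom.ker ψ)).exists_le_valuationSubring
  obtain ⟨a, ha⟩ := Finite.exists_max (fun j => V.valuation (x j))
  have ha0 : x a ≠ 0 := by
    intro h0
    apply hx
    funext j
    have := ha j
    rw [h0, map_zero] at this
    exact (map_eq_zero V.valuation).1 (le_antisymm this zero_le)
  have hxV : ∀ j, x j / x a ∈ V := by
    intro j
    rw [← V.valuation_le_one_iff, map_div₀]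
    exact div_le_one_of_le₀ (ha j) zero_le
  -- the homomorphism on the local ring
  have hLA : A ≤ (LocalSubring.ofPrime A (RingHom.ker ψ)).toSubring := LocalSubring.le_ofPrime _ _
  let R := (LocalSubring.ofPrime A (RingHom.ker ψ)).toSubring
  have hunit : ∀ y : (RingHom.ker ψ).primeCompl, IsUnit (ψ y) := by
    intro y
    rw [isUnit_iff_ne_zero]
    exact y.2
  let ψ' : R →+* Ω := IsLocalization.lift (M := (RingHom.ker ψ).primeCompl) (S := R) hunit
  have hψ' : ∀ y : A, ψ' (algebraMap A R y) = ψ y := fun y => IsLocalization.lift_eq hunit y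
  have hker : RingHom.ker ψ' = maximalIdeal R := by
    apply le_antisymm
    · exact le_maximalIdeal (RingHom.ker_ne_top ψ')
    · rw [← IsLocalization.AtPrime.map_eq_maximalIdeal (RingHom.ker ψ) R, Ideal.map_le_iff_le_comap]
      intro y hy
      rw [Ideal.mem_comap, RingHom.mem_ker, hψ']
      exact hy
  let S := Algebra.adjoin R (Set.range (fun j => x j / x a))
  have hfin : Algebra.FiniteType R S :=
    (Subalgebra.fg_iff_finiteType _).1 (Subalgebra.fg_def.2 ⟨_, Set.finite_range _, rfl⟩)
  have hSV : ∀ y : K, y ∈ S → y ∈ V := by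
    intro y hy
    refine Algebra.adjoin_induction (p := fun y _ => y ∈ V) ?_ ?_ ?_ ?_ hy
    · rintro _ ⟨j, rfl⟩
      exact hxV j
    · intro r
      exact hV.1 r.2
    · intro a b _ _ h1 h2
      exact V.add_mem _ _ h1 h2
    · intro a b _ _ h1 h2
      exact V.mul_mem _ _ h1 h2
  let i : S →+* V.toLocalSubring.toSubring :=
    { toFun := fun y => ⟨y, hSV y y.2⟩
      map_one' := rfl
      map_mul' := fun _ _ => rfl
      map_zero' := rfl
      map_add' := fun _ _ => rfl }
  have hloc : IsLocalHom (Subring.inclusion hV.1) := hV.2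
  have htop : (maximalIdeal R).map (algebraMap R S) ≠ ⊤ := by
    have h1 : (maximalIdeal R).map (algebraMap R S) ≤
        (maximalIdeal V.toLocalSubring.toSubring).comap i := by
      rw [Ideal.map_le_iff_le_comap]
      intro r hr
      rw [Ideal.mem_comap]
      have h2 : Subring.inclusion hV.1 r ∈ maximalIdeal V.toLocalSubring.toSubring := by
        rw [mem_maximalIdeal, mem_nonunits_iff] at hr ⊢
        intro h3
        exact hr (isUnit_of_map_unit (Subring.inclusion hV.1) r h3)
      exact h2
    intro h2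
    rw [h2, top_le_iff] at h1
    exact (Ideal.comap_ne_top i (maximalIdeal.isMaximal _).ne_top) h1
  obtain ⟨φ, hφ⟩ := exists_ext_of_local ψ' hker htop
  refine ⟨a, ha0, S.toSubring, ?_, ?_, φ, ?_⟩
  · intro y hy
    exact S.algebraMap_mem ⟨y, hLA hy⟩
  · intro j
    exact Algebra.subset_adjoin ⟨j, rfl⟩
  · intro y
    rw [← hψ' y, ← hφ]
    rfl

end Pool.Agent.N164.RP
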