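import Pool.Agent.N164.RP.Main

/-!
# Fields of definition, and the theorem
-/

set_option autoImplicit false

open MvPolynomial
open scoped LinearAlgebra.Projectivization

namespace Pool.Agent.N164.RP

variable {ι : Type} {N : ℕ}

theorem exists_descent {K : Subfield ℂ} {σ : Type} (P : MvPolynomial σ ℂ)
    (h : (P.coeffs : Set ℂ) ⊆ K) : ∃ Q : MvPolynomial σ K, MvPolynomial.map (algebraMap K ℂ) Q = P := by
  have h1 : P ∈ Set.range (MvPolynomial.map (σ := σ) (algebraMap K ℂ)) := by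
    rw [mem_range_map_iff_coeffs_subset]
    intro c hc
    exact ⟨⟨c, h hc⟩, rfl⟩
  exact h1

/-- A closed set is defined over all fields which contain certain finitely many numbers. -/
theorem closed_over [Finite ι] {Z : Set (ι → Pt N)} (hZ : IsClosedSet Z) :
    ∃ T : Set ℂ, T.Countable ∧ ∀ K : Subfield ℂ, T ⊆ K →
      ∃ S : Set (PolyK K ι N), Z = {p | ∀ F ∈ S, Vanishes (toC F) p} := by
  obtain ⟨S, hS⟩ := hZ
  have hfg : (Submodule.span (Poly ι N) S).FG := IsNoetherian.noetherian _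
  obtain ⟨S', hS', hspan⟩ := (Submodule.fg_span_iff_fg_span_finset_subset S).1 hfg
  have hZ' : Z = {p | ∀ F ∈ S', Vanishes F p} := by
    rw [hS]
    ext p
    constructor
    · intro h F hF
      exact h F (hS' hF)
    · intro h F hF
      have h1 : F ∈ Submodule.span (Poly ι N) (S' : Set (Poly ι N)) := by
        rw [← hspan]
        exact Submodule.subset_span hF
      refine Submodule.span_induction (p := fun F _ => Vanishes F p) ?_ ?_ ?_ ?_ h1
      · intro G hG
        exact h G hG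
      · intro v _
        exact map_zero _
      · intro G H _ _ hG hH v hv
        rw [map_add, hG v hv, hH v hv, add_zero]
      · intro c G _ hG v hv
        rw [smul_eq_mul, map_mul, hG v hv, mul_zero]
  refine ⟨⋃ F ∈ S', (F.coeffs : Set ℂ), ?_, ?_⟩
  · exact S'.countable_toSet.biUnion fun F _ => F.coeffs.countable_toSet
  · intro K hK
    refine ⟨{F | toC F ∈ S'}, ?_⟩
    rw [hZ']
    ext p
    constructor
    · intro h F hF
      exact h _ hF
    · intro h F hF
      obtain ⟨Q, hQ⟩ := exists_descent (K := K) F ((Set.subset_biUnion_of_mem hF).trans hK)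
      rw [← hQ]
      exact h Q (by rw [Set.mem_ofPred_eq, toC, hQ]; exact hF)

theorem rel_over {X : Set (Pt N)} {d : ℕ} (hX : ¬ DimGE (one X) (d + 1)) :
    ∃ T : Set ℂ, T.Countable ∧ ∀ K : Subfield ℂ, T ⊆ K →
      ∀ (a : Unit → Fin (N + 1)) (s : Finset (Unit × Fin (N + 1))), s.card = d + 1 →
        ∃ P : MvPolynomial s K, P ≠ 0 ∧ ∀ p ∈ one X, InChart a p →
          aeval (fun t : s => affine a p t) P = 0 := by
  have h1 : ∀ as : (Unit → Fin (N + 1)) × Finset (Unit × Fin (N + 1)),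
      ∃ P : MvPolynomial as.2 ℂ, as.2.card = d + 1 → P ≠ 0 ∧ ∀ p ∈ one X, InChart as.1 p →
        eval (fun t : as.2 => affine as.1 p t) P = 0 := by
    rintro ⟨a, s⟩
    by_cases hs : s.card = d + 1
    · by_contra hcon
      push Not at hcon
      apply hX
      refine ⟨a, s, hs, fun P hP => ?_⟩
      obtain ⟨-, h2⟩ := hcon P
      exact h2 hP
    · exact ⟨0, fun h => absurd h hs⟩
  choose P hP using h1
  refine ⟨⋃ as, ((P as).coeffs : Set ℂ), ?_, ?_⟩
  · exact Set.countable_iUnion fun as => (P as).coeffs.countable_toSet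
  · intro K hK a s hs
    obtain ⟨Q, hQ⟩ := exists_descent (K := K) (P (a, s)) ((Set.subset_iUnion _ (a, s)).trans hK)
    obtain ⟨h2, h3⟩ := hP (a, s) hs
    refine ⟨Q, ?_, fun p hp hpa => ?_⟩
    · rintro rfl
      apply h2
      rw [← hQ, map_zero]
    · have h4 := h3 p hp hpa
      rw [← hQ, eval_map, ← aeval_def] at h4
      exact h4

theorem rk_top (s : Set ℂ) : rk (⊤ : Subfield ℂ) s ≤ 1 := by
  have h1 : s ⊆ (M (⊤ : Subfield ℂ)).closure ∅ := fun a _ =>
    mem_closure_of_mem_ext (le_ext _ _ (Subfield.mem_top a))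
  refine (rk_le_of_subset_closure h1).trans ((rk_le_encard _ _).trans ?_)
  simp

theorem isOn_of_mem_closure {C : Set (Pt N)} {w : Cycle N}
    (h : w ∈ AddSubgroup.closure (pt '' C)) : IsOn w C := by
  classical
  refine AddSubgroup.closure_induction (p := fun w _ => IsOn w C) ?_ ?_ ?_ ?_ h
  · rintro _ ⟨x, hx, rfl⟩ q hq
    rw [pt, Finsupp.mem_support_single] at hq
    rw [hq.1]
    exact hx
  · intro q hq
    simp at hq
  · intro a b _ _ ha hb q hq
    rcases Finset.mem_union.1 (Finsupp.support_add hq) with h1 | h1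
    · exact ha q h1
    · exact hb q h1
  · intro a _ ha q hq
    rw [Finsupp.support_neg] at hq
    exact ha q hq

theorem mem_of_isOn {C : Set (Pt N)} {H : AddSubgroup (Cycle N)} {n : ℤ}
    (h : ∀ x ∈ C, n • pt x ∈ H) {z : Cycle N} (hz : IsOn z C) : n • z ∈ H := by
  have h1 : z = ∑ p ∈ z.support, z p • pt p := by
    conv_lhs => rw [← Finsupp.sum_single z]
    rw [Finsupp.sum]
    refine Finset.sum_congr rfl fun p _ => ?_
    rw [pt, Finsupp.smul_single, smul_eq_mul, mul_one]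
  rw [h1, Finset.smul_sum]
  refine AddSubgroup.sum_mem _ fun p hp => ?_
  rw [smul_comm]
  exact AddSubgroup.zsmul_mem _ (h p (hz p hp)) _

/-- The theorem, for all subgroups `R` of the group of zero-cycles. -/
theorem main {N d m : ℕ} (hd : 1 ≤ d) {X : Set (Pt N)} (hX : IsVariety X d)
    {Z : Set (Fin m → Pt N)} (hZ : IsClosedSet Z) (hZX : ∀ p ∈ Z, ∀ i, p i ∈ X)
    (hdim : DimGE Z (m * (d - 1) + 1)) (a : Fin m → ℤ) (ha : ∀ i, a i ≠ 0)
    (R : AddSubgroup (Cycle N))
    (hrel : ∀ p ∈ Z, ∀ q ∈ Z, ∑ i, a i • (pt (p i) - pt (q i)) ∈ R) :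
    ∃ C ⊆ X, IsClosedSet (one C) ∧ ¬ DimGE (one C) 2 ∧
      ∃ n : ℕ, n ≠ 0 ∧ ((∀ i, a i = 1 ∨ a i = -1) → n = 1) ∧
        ∀ z : Cycle N, IsOn z X → ∃ w : Cycle N, IsOn w C ∧ n • z - w ∈ R := by
  classical
  obtain ⟨T₁, hT₁, h₁⟩ := closed_over hX.closed
  obtain ⟨T₂, hT₂, h₂⟩ := rel_over hX.dim_lt
  obtain ⟨T₃, hT₃, h₃⟩ := closed_over hZ
  set K : Subfield ℂ := Subfield.closure (T₁ ∪ T₂ ∪ T₃) with hK
  have hcK : Countable K := by
    rw [← Cardinal.mk_le_aleph0_iff]
    refine (Subfield.cardinalMk_closure_le_max _).trans ?_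
    rw [max_le_iff]
    refine ⟨?_, le_rfl⟩
    rw [Cardinal.le_aleph0_iff_set_countable]
    exact (hT₁.union hT₂).union hT₃
  have hsub : T₁ ∪ T₂ ∪ T₃ ⊆ (K : Set ℂ) := Subfield.subset_closure
  have hbase : Base X d K :=
    ⟨h₁ K (fun t ht => hsub (Or.inl (Or.inl ht))), h₂ K (fun t ht => hsub (Or.inl (Or.inr ht)))⟩
  obtain ⟨S, hS⟩ := h₃ K (fun t ht => hsub (Or.inr ht))
  obtain ⟨p, hpZ, hrk⟩ := exists_point hS hdim
  have hloc : ∀ q ∈ Loc K p, q ∈ Z := by
    intro q hq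
    rw [hS] at hpZ ⊢
    intro F hF
    exact hq F (hpZ F hF)
  obtain ⟨C₁, hC₁, i, hi⟩ := main_induction (pt : Pt N → Cycle N) hd hX.irreducible m a K hbase R p
    (hZX p hpZ) hrk (fun q hq q' hq' => hrel q (hloc q hq) q' (hloc q' hq'))
  obtain ⟨x₀, hx₀⟩ := hX.nonempty
  have hC₂ : GoodCurve X {y | (fun _ : Unit => y) ∈ Loc ⊤ (fun _ : Unit => x₀)} :=
    GoodCurve.loc (hbase.mono le_top) hx₀ (rk_top _)
  obtain ⟨C, hC, hC1C, hx₀C⟩ : ∃ C, GoodCurve X C ∧ C₁ ⊆ C ∧ x₀ ∈ C :=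
    ⟨_, hC₁.union hC₂, Set.subset_union_left, Or.inr (self_mem_Loc _ _)⟩
  refine ⟨C, hC.subset, hC.closed, hC.dim, (a i).natAbs, Int.natAbs_ne_zero.2 (ha i), ?_, ?_⟩
  · intro h
    rcases h i with h1 | h1 <;> rw [h1] <;> rfl
  · intro z hz
    have hle : R ⊔ AddSubgroup.closure (pt '' C₁) ≤ R ⊔ AddSubgroup.closure (pt '' C) :=
      sup_le_sup_left (AddSubgroup.closure_mono (Set.image_mono hC1C)) R
    have hmem : ∀ x ∈ X, a i • pt x ∈ R ⊔ AddSubgroup.closure (pt '' C) := by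
      intro x hx
      have h2 : a i • (pt x - pt x₀) ∈ R ⊔ AddSubgroup.closure (pt '' C) :=
        hle (hi x hx x₀ hx₀)
      have h3 : a i • pt x₀ ∈ R ⊔ AddSubgroup.closure (pt '' C) :=
        AddSubgroup.mem_sup_right (AddSubgroup.zsmul_mem _
          (AddSubgroup.subset_closure (Set.mem_image_of_mem _ hx₀C)) _)
      have h4 : a i • pt x = a i • (pt x - pt x₀) + a i • pt x₀ := by
        rw [smul_sub, sub_add_cancel]
      rw [h4]
      exact AddSubgroup.add_mem _ h2 h3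
    have h1 : a i • z ∈ R ⊔ AddSubgroup.closure (pt '' C) := mem_of_isOn hmem hz
    have h2 : (a i).natAbs • z ∈ R ⊔ AddSubgroup.closure (pt '' C) := by
      rcases Int.natAbs_eq (a i) with h3 | h3
      · rw [h3] at h1
        rwa [natCast_zsmul] at h1
      · rw [h3, neg_smul, natCast_zsmul] at h1
        exact (AddSubgroup.neg_mem_iff _).1 h1
    obtain ⟨r, hr, w, hw, hrw⟩ := AddSubgroup.mem_sup.1 h2
    refine ⟨w, isOn_of_mem_closure hw, ?_⟩
    rw [← hrw, add_sub_cancel_right]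
    exact hr

end Pool.Agent.N164.RP
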