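import Pool.Agent.N164.RP.Cons
import Pool.Agent.N164.RP.Embed

/-!
# Generic points
-/

set_option autoImplicit false

open MvPolynomial
open scoped LinearAlgebra.Projectivization

namespace Pool.Agent.N164.RP

variable {ι : Type} {N : ℕ}

/-- A chart for a point. -/
noncomputable def can (x : Pt N) : Fin (N + 1) := (exists_index x).choose

theorem rep_can (x : Pt N) : x.rep (can x) ≠ 0 := (exists_index x).choose_spec

/-- The affine coordinates of a point. -/
noncomputable def E (x : Pt N) : Set ℂ :=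
  Set.range (affine (fun _ : Unit => can x) (fun _ : Unit => x))

/-- The affine coordinates of a tuple of points. -/
noncomputable def Et (p : ι → Pt N) : Set ℂ := ⋃ i, E (p i)

theorem finite_E (x : Pt N) : (E x).Finite := Set.finite_range _

theorem mem_closure_of_mem_ext {K : Subfield ℂ} {s : Set ℂ} {a : ℂ} (h : a ∈ ext K s) :
    a ∈ (M K).closure s := by
  rw [mem_closure_iff]
  exact isAlgebraic_algebraMap (⟨a, h⟩ : ext K s)

theorem affine_mem_closure {K : Subfield ℂ} {a : ι → Fin (N + 1)} {p : ι → Pt N}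
    (s : ι × Fin (N + 1)) : affine a p s ∈ (M K).closure (Et p) := by
  apply mem_closure_of_mem_ext
  have h1 : ∀ j, (p s.1).rep j / (p s.1).rep (can (p s.1)) ∈ ext K (Et p) := fun j =>
    subset_ext K _ (Set.mem_iUnion.2 ⟨s.1, ⟨((), j), rfl⟩⟩)
  have h2 := div_mem (h1 s.2) (h1 (a s.1))
  have h3 := rep_can (p s.1)
  rw [div_div_div_cancel_right₀ h3] at h2
  exact h2

theorem rk_affine_le {K : Subfield ℂ} {a : ι → Fin (N + 1)} {p : ι → Pt N} :
    rk K (Set.range (affine a p)) ≤ rk K (Et p) := by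
  apply rk_le_of_subset_closure
  rintro _ ⟨s, rfl⟩
  exact affine_mem_closure s

theorem Et_cons {m : ℕ} (x : Pt N) (u : Fin m → Pt N) :
    Et (Fin.cons x u : Fin (m + 1) → Pt N) = E x ∪ Et u := by
  ext z
  simp only [Et, Set.mem_iUnion, Set.mem_union]
  constructor
  · rintro ⟨i, hi⟩
    revert hi
    refine Fin.cases ?_ (fun i => ?_) i
    · exact fun h => Or.inl h
    · exact fun h => Or.inr ⟨i, h⟩
  · rintro (h | ⟨i, h⟩)
    · exact ⟨0, h⟩
    · exact ⟨i.succ, h⟩

theorem Et_unit (x : Pt N) : Et (fun _ : Unit => x) = E x := by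
  simp only [Et, Set.iUnion_const]

/-- The ideal of the polynomials over `K` in the affine coordinates which vanish on `W`. -/
def affIdeal (K : Subfield ℂ) (a : ι → Fin (N + 1)) (W : Set (ι → Pt N)) : Ideal (PolyK K ι N) where
  carrier := {P | ∀ p ∈ W, InChart a p → aeval (affine a p) P = 0}
  zero_mem' := fun p _ _ => map_zero _
  add_mem' := fun hP hQ p hp hpa => by rw [map_add, hP p hp hpa, hQ p hp hpa, add_zero]
  smul_mem' := fun c P hP p hp hpa => by
    rw [smul_eq_mul, map_mul, hP p hp hpa, mul_zero]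

theorem mem_affIdeal {K : Subfield ℂ} {a : ι → Fin (N + 1)} {W : Set (ι → Pt N)}
    {P : PolyK K ι N} : P ∈ affIdeal K a W ↔ ∀ p ∈ W, InChart a p → aeval (affine a p) P = 0 :=
  Iff.rfl

/-- A closed set of dimension at least `r`, defined over the countable field `K`, has a point whose
coordinates have rank at least `r` over `K`. -/
theorem exists_point [Fintype ι] {K : Subfield ℂ} [Countable K] {Z : Set (ι → Pt N)}
    {S : Set (PolyK K ι N)} (hZ : Z = {p | ∀ F ∈ S, Vanishes (toC F) p}) {r : ℕ}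
    (hdim : DimGE Z r) : ∃ q ∈ Z, (r : ℕ∞) ≤ rk K (Et q) := by
  classical
  obtain ⟨a, s, hs, hP⟩ := hdim
  let T : Submonoid (PolyK K ι N) :=
    { carrier := {P | ∃ Q : MvPolynomial s K, Q ≠ 0 ∧ rename Subtype.val Q = P}
      one_mem' := ⟨1, one_ne_zero, map_one _⟩
      mul_mem' := by
        rintro _ _ ⟨Q, hQ, rfl⟩ ⟨R, hR, rfl⟩
        exact ⟨Q * R, mul_ne_zero hQ hR, map_mul _ _ _⟩ }
  have hdisj : Disjoint (affIdeal K a Z : Set (PolyK K ι N)) T := by
    rw [Set.disjoint_left]
    rintro _ hQI ⟨Q, hQ, rfl⟩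
    have hQ' : MvPolynomial.map (algebraMap K ℂ) Q ≠ 0 := by
      intro h0
      apply hQ
      apply MvPolynomial.map_injective _ (algebraMap K ℂ).injective
      rw [h0, map_zero]
    obtain ⟨p, hpZ, hpa, hp⟩ := hP _ hQ'
    apply hp
    have h1 := hQI p hpZ hpa
    rw [aeval_rename] at h1
    rw [eval_map, ← aeval_def]
    exact h1
  obtain ⟨𝔭, h𝔭, hle, hd⟩ := Ideal.exists_le_prime_disjoint _ T hdisj
  have hcR : Countable (PolyK K ι N) := countable_mvPolynomial
  obtain ⟨ψ, hψ⟩ := exists_hom_ker (K := K) 𝔭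
  let c : ι × Fin (N + 1) → ℂ := fun s => ψ (X s)
  have hc : ∀ P, aeval c P = ψ P := by
    intro P
    have : aeval c = ψ := by
      apply MvPolynomial.algHom_ext
      intro s
      rw [aeval_X]
    rw [this]
  have hca : ∀ i, c (i, a i) = 1 := by
    intro i
    have h1 : (X (i, a i) - 1 : PolyK K ι N) ∈ affIdeal K a Z := by
      intro p _ hpa
      rw [map_sub, aeval_X, map_one, affine, div_self (hpa i), sub_self]
    have h2 := (hψ _).2 (hle h1)
    rw [map_sub, map_one, sub_eq_zero] at h2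
    exact h2
  have hne : ∀ i, (fun j => c (i, j)) ≠ 0 := by
    intro i h0
    have := congrFun h0 (a i)
    simp only [hca i, Pi.zero_apply] at this
    exact one_ne_zero this
  let q : ι → Pt N := fun i => Projectivization.mk ℂ (fun j => c (i, j)) (hne i)
  have hq : ∀ i, IsCoord (fun j => c (i, j)) (q i) := fun i => ⟨hne i, rfl⟩
  have hqa : InChart a q := by
    intro i h0
    obtain ⟨b, hb, h⟩ := isCoord_iff.1 (hq i)
    have h1 := congrFun h (a i)
    simp only [hca i, Pi.smul_apply, h0, smul_zero] at h1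
    exact one_ne_zero h1
  have haff : affine a q = c := by
    funext s
    have h1 := affine_of_isCoord (a := a) hq s
    rw [hca, div_one] at h1
    exact h1.symm
  refine ⟨q, ?_, ?_⟩
  · rw [hZ]
    intro F hF
    refine vanishes_of_forall_aeval (W := {p | p ∈ Z ∧ InChart a p}) (a := a) (fun p hp => hp.2) hqa
      ?_ F ?_
    · intro P hP'
      rw [haff, hc]
      exact (hψ P).2 (hle fun p hp hpa => hP' p ⟨hp, hpa⟩)
    · rintro p ⟨hp, -⟩
      rw [hZ] at hp
      exact hp F hF
  · rw [← hs]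
    refine le_trans ?_ (rk_affine_le (a := a))
    apply card_le_rk
    rw [haff, algebraicIndependent_iff]
    intro Q hQ
    by_contra hQ0
    have h1 : ψ (rename Subtype.val Q) = 0 := by
      rw [← hc, aeval_rename]
      exact hQ
    exact Set.disjoint_left.1 hd ((hψ _).1 h1) ⟨Q, hQ0, rfl⟩

end Pool.Agent.N164.RP
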