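import Pool.Agent.N164.RP.Gen

/-!
# Points of maximal rank on an irreducible variety are generic
-/

set_option autoImplicit false

open MvPolynomial
open scoped LinearAlgebra.Projectivization

namespace Pool.Agent.N164.RP

variable {N : ℕ}

/-- The variety `X` is defined over `K`, and any `d + 1` affine coordinates satisfy an equation over
`K` on `X`. -/
structure Base (X : Set (Pt N)) (d : ℕ) (K : Subfield ℂ) : Prop where
  eqs : ∃ S : Set (PolyK K Unit N), one X = {p | ∀ F ∈ S, Vanishes (toC F) p}
  rel : ∀ (a : Unit → Fin (N + 1)) (s : Finset (Unit × Fin (N + 1))), s.card = d + 1 →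
    ∃ P : MvPolynomial s K, P ≠ 0 ∧ ∀ p ∈ one X, InChart a p →
      aeval (fun t : s => affine a p t) P = 0

theorem Base.mono {X : Set (Pt N)} {d : ℕ} {K K' : Subfield ℂ} (h : Base X d K) (hK : K ≤ K') :
    Base X d K' := by
  constructor
  · obtain ⟨S, hS⟩ := h.eqs
    refine ⟨MvPolynomial.map (Subfield.inclusion hK) '' S, ?_⟩
    rw [hS]
    ext p
    have h1 : ∀ F : PolyK K Unit N, toC (MvPolynomial.map (Subfield.inclusion hK) F) = toC F := by
      intro F
      rw [toC, toC, map_map]
      rfl
    simp only [Set.mem_ofPred_eq, Set.forall_mem_image, h1]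
  · intro a s hs
    obtain ⟨P, hP, h1⟩ := h.rel a s hs
    refine ⟨MvPolynomial.map (Subfield.inclusion hK) P, ?_, fun p hp hpa => ?_⟩
    · intro h0
      apply hP
      apply MvPolynomial.map_injective _ (Subfield.inclusion hK).injective
      rw [h0, map_zero]
    · have h2 := h1 p hp hpa
      rw [aeval_def] at h2
      rw [aeval_def, eval₂_map]
      exact h2

theorem Base.closed {X : Set (Pt N)} {d : ℕ} {K : Subfield ℂ} (h : Base X d K) {x : Pt N}
    (hx : x ∈ X) {y : Pt N} (hy : (fun _ : Unit => y) ∈ Loc K (fun _ : Unit => x)) : y ∈ X := by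
  obtain ⟨S, hS⟩ := h.eqs
  have h1 : (fun _ : Unit => x) ∈ one X := hx
  rw [hS] at h1
  have h2 : (fun _ : Unit => y) ∈ one X := by
    rw [hS]
    intro F hF
    exact hy F (h1 F hF)
  exact h2

theorem Base.rk_le {X : Set (Pt N)} {d : ℕ} {K : Subfield ℂ} (h : Base X d K) {x : Pt N}
    (hx : x ∈ X) : rk K (E x) ≤ d := by
  by_contra hlt
  rw [not_le] at hlt
  have h1 : ((d + 1 : ℕ) : ℕ∞) ≤ rk K (E x) := by
    have := Order.add_one_le_of_lt hlt
    exact_mod_cast this
  obtain ⟨s, hs, hind⟩ := exists_independent h1
  obtain ⟨P, hP, h2⟩ := h.rel (fun _ => can x) s hs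
  exact hP (algebraicIndependent_iff.1 hind P (h2 (fun _ => x) hx (fun _ => rep_can x)))

/-- A homomorphism of domains which preserves the independence of a transcendence basis is
injective. -/
theorem injective_of_independent {K A B σ : Type} [Field K] [CommRing A] [IsDomain A] [Algebra K A]
    [CommRing B] [IsDomain B] [Algebra K B] (e : A →ₐ[K] B) (t : σ → A)
    (htop : Algebra.adjoin K (Set.range t) = ⊤) (s : Set σ)
    (hind : AlgebraicIndependent K (fun j : s => e (t j)))
    (hdep : ∀ j ∉ s, ¬ AlgebraicIndepOn K t (insert j s)) : Function.Injective e := by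
  have hindt : AlgebraicIndepOn K t s := by
    have h1 : AlgebraicIndependent K (e ∘ fun j : s => t j) := hind
    exact h1.of_comp
  let R := Algebra.adjoin K (t '' s)
  have halg : ∀ j, IsAlgebraic R (t j) := by
    intro j
    by_cases hj : j ∈ s
    · exact isAlgebraic_algebraMap (⟨t j, Algebra.subset_adjoin ⟨j, hj, rfl⟩⟩ : R)
    · by_contra hj'
      exact hdep j hj (hindt.insert hj')
  have halg' : ∀ z : A, IsAlgebraic R z := by
    intro z
    have hz : z ∈ Algebra.adjoin K (Set.range t) := by rw [htop]; trivial
    refine Algebra.adjoin_induction (p := fun z _ => IsAlgebraic R z) ?_ ?_ ?_ ?_ hz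
    · rintro _ ⟨j, rfl⟩; exact halg j
    · intro k; exact isAlgebraic_algebraMap (algebraMap K R k)
    · intro a b _ _ ha hb; exact ha.add hb
    · intro a b _ _ ha hb; exact ha.mul hb
  have hinj : ∀ r : R, e r = 0 → r = 0 := by
    intro r hr
    have h1 : (r : A) ∈ Algebra.adjoin K (Set.range fun j : s => t j) := by
      have h2 : (Set.range fun j : s => t j) = t '' s := by
        ext z
        simp
      rw [h2]
      exact r.2
    rw [Algebra.adjoin_range_eq_range_aeval] at h1
    obtain ⟨Q, hQ⟩ := h1
    have hQ' : aeval (fun j : s => t j) Q = (r : A) := hQ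
    have h3 : aeval (fun j : s => e (t j)) Q = 0 := by
      have h5 := comp_aeval_apply (fun j : s => t j) e Q
      rw [← h5, hQ', hr]
    have h7 : Q = 0 := algebraicIndependent_iff.1 hind Q h3
    apply Subtype.ext
    rw [← hQ', h7]
    exact map_zero _
  rw [injective_iff_map_eq_zero]
  intro z hz
  by_contra h0
  obtain ⟨q, hq0, hq⟩ := (halg' z).exists_nonzero_coeff_and_aeval_eq_zero
    (mem_nonZeroDivisors_of_ne_zero h0)
  apply hq0
  apply hinj
  have h1 : e (Polynomial.aeval z q) =
      Polynomial.eval₂ (e.toRingHom.comp (algebraMap R A)) (e z) q := by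
    rw [Polynomial.aeval_def]
    exact Polynomial.hom_eval₂ q (algebraMap R _) e.toRingHom _
  rw [hq, map_zero, hz, Polynomial.eval₂_at_zero] at h1
  exact h1.symm

section Generic

variable {X : Set (Pt N)} {d : ℕ} {K : Subfield ℂ}

/-- The multiplication of a homogenization with the coordinate of the chart. -/
theorem vanishes_mul_X {F : Poly Unit N} {a : Unit → Fin (N + 1)} {p : Unit → Pt N}
    (hp : InChart a p) : Vanishes (F * MvPolynomial.X ((), a ())) p ↔ Vanishes F p := by
  constructor
  · intro h v hv
    have h1 := h v hv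
    rw [map_mul, eval_X] at h1
    exact (mul_eq_zero.1 h1).resolve_right (ne_zero_of_isCoord hv hp ())
  · intro h v hv
    rw [map_mul, h v hv, zero_mul]

theorem vanishes_X_of_not_inChart {a : Unit → Fin (N + 1)} {p : Unit → Pt N}
    (hp : ¬ InChart a p) : Vanishes (MvPolynomial.X ((), a ()) : Poly Unit N) p := by
  intro v hv
  rw [eval_X]
  obtain ⟨c, hc, h⟩ := isCoord_iff.1 (hv ())
  have h1 : (p ()).rep (a ()) = 0 := by
    by_contra h0
    exact hp fun i => h0
  change v () (a ()) = 0
  rw [h, Pi.smul_apply, h1, smul_zero]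

theorem vanishes_mul_left {F G : Poly Unit N} {p : Unit → Pt N} (h : Vanishes F p) :
    Vanishes (F * G) p := fun v hv => by rw [map_mul, h v hv, zero_mul]

theorem vanishes_mul_right {F G : Poly Unit N} {p : Unit → Pt N} (h : Vanishes G p) :
    Vanishes (F * G) p := fun v hv => by rw [map_mul, h v hv, mul_zero]

theorem isPrime_affIdeal
    (hirr : ∀ F G : Poly Unit N, VanishesOn (F * G) (one X) →
      VanishesOn F (one X) ∨ VanishesOn G (one X))
    {a : Unit → Fin (N + 1)} {x : Unit → Pt N} (hx : x ∈ one X) (hxa : InChart a x) :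
    (affIdeal K a (one X)).IsPrime := by
  constructor
  · rw [Ideal.ne_top_iff_one]
    intro h
    have := h x hx hxa
    rw [map_one] at this
    exact one_ne_zero this
  · intro P Q hPQ
    obtain ⟨F, hF⟩ := vanishes_of_aeval (a := a) P
    obtain ⟨G, hG⟩ := vanishes_of_aeval (a := a) Q
    have h1 : VanishesOn ((toC F * MvPolynomial.X ((), a ())) * (toC G * MvPolynomial.X ((), a ())))
        (one X) := by
      intro p hp
      by_cases hpa : InChart a p
      · have h2 := hPQ p hp hpa
        rw [map_mul] at h2
        rcases mul_eq_zero.1 h2 with h3 | h3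
        · exact vanishes_mul_left (vanishes_mul_left ((hF p hpa).2 h3))
        · exact vanishes_mul_right (vanishes_mul_left ((hG p hpa).2 h3))
      · exact vanishes_mul_left (vanishes_mul_right (vanishes_X_of_not_inChart hpa))
    rcases hirr _ _ h1 with h2 | h2
    · left
      intro p hp hpa
      exact (hF p hpa).1 ((vanishes_mul_X hpa).1 (h2 p hp))
    · right
      intro p hp hpa
      exact (hG p hpa).1 ((vanishes_mul_X hpa).1 (h2 p hp))

/-- A point of `X` of rank at least `d` over `K` is a generic point of `X`. -/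
theorem Base.generic (h : Base X d K)
    (hirr : ∀ F G : Poly Unit N, VanishesOn (F * G) (one X) →
      VanishesOn F (one X) ∨ VanishesOn G (one X))
    {x : Pt N} (hx : x ∈ X) (hrk : (d : ℕ∞) ≤ rk K (E x)) {y : Pt N} (hy : y ∈ X) :
    (fun _ : Unit => y) ∈ Loc K (fun _ : Unit => x) := by
  classical
  set a : Unit → Fin (N + 1) := fun _ => can x with ha
  have hxa : InChart a (fun _ : Unit => x) := fun _ => rep_can x
  obtain ⟨s, hs, hind⟩ := exists_independent hrk
  have hprime : (affIdeal K a (one X)).IsPrime :=
    isPrime_affIdeal hirr (x := fun _ => x) hx hxa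
  set I := affIdeal K a (one X) with hI
  have hker : ∀ P ∈ I, (aeval (affine a fun _ => x) : PolyK K Unit N →ₐ[K] ℂ) P = 0 :=
    fun P hP => hP _ hx hxa
  have hinj : Function.Injective
      (Ideal.Quotient.liftₐ I (aeval (affine a fun _ => x) : PolyK K Unit N →ₐ[K] ℂ) hker) := by
    refine injective_of_independent _
      (fun j => Ideal.Quotient.mkₐ K I (MvPolynomial.X j)) ?_ (s : Set (Unit × Fin (N + 1))) ?_ ?_
    · have h1 : Set.range (fun j : Unit × Fin (N + 1) =>
          Ideal.Quotient.mkₐ K I (MvPolynomial.X j : PolyK K Unit N)) =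
          (Ideal.Quotient.mkₐ K I) '' Set.range (MvPolynomial.X : _ → PolyK K Unit N) := by
        rw [← Set.range_comp]
        rfl
      rw [h1, ← AlgHom.map_adjoin, MvPolynomial.adjoin_range_X, Algebra.map_top,
        AlgHom.range_eq_top]
      exact Ideal.Quotient.mkₐ_surjective K I
    · have h1 : (fun j : (s : Set (Unit × Fin (N + 1))) =>
          Ideal.Quotient.liftₐ I (aeval (affine a fun _ => x) : PolyK K Unit N →ₐ[K] ℂ) hker
            (Ideal.Quotient.mkₐ K I (MvPolynomial.X (j : Unit × Fin (N + 1))))) =
          fun j : (s : Set (Unit × Fin (N + 1))) => affine a (fun _ => x) j := by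
        funext j
        exact aeval_X _ _
      rw [h1]
      exact hind
    · intro j hj h1
      have h2 : (insert j s).card = d + 1 := by
        rw [Finset.card_insert_of_notMem (by simpa using hj), hs]
      obtain ⟨P, hP, h3⟩ := h.rel a (insert j s) h2
      apply hP
      have h4 : AlgebraicIndependent K (fun i : (insert j s : Finset _) =>
          Ideal.Quotient.mkₐ K I (MvPolynomial.X (i : Unit × Fin (N + 1)))) := by
        have h5 : (insert j (s : Set (Unit × Fin (N + 1)))) = ((insert j s : Finset _) : Set _) :=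
          (Finset.coe_insert _ _).symm
        rw [h5] at h1
        exact h1
      apply algebraicIndependent_iff.1 h4
      have h5 : (aeval fun i : (insert j s : Finset _) =>
          Ideal.Quotient.mkₐ K I (MvPolynomial.X (i : Unit × Fin (N + 1)))) P =
          Ideal.Quotient.mkₐ K I (rename Subtype.val P) := by
        have h6 : (aeval fun i : (insert j s : Finset _) =>
            Ideal.Quotient.mkₐ K I (MvPolynomial.X (i : Unit × Fin (N + 1)))) =
            (Ideal.Quotient.mkₐ K I).comp (rename Subtype.val) := by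
          apply MvPolynomial.algHom_ext
          intro i
          rw [aeval_X, AlgHom.comp_apply, rename_X]
        exact AlgHom.congr_fun h6 P
      rw [h5, Ideal.Quotient.mkₐ_eq_mk, Ideal.Quotient.eq_zero_iff_mem]
      intro p hp hpa
      rw [aeval_rename]
      exact h3 p hp hpa
  -- the equations of `x` over `K` hold on `X`
  have star : ∀ P : PolyK K Unit N, aeval (affine a fun _ => x) P = 0 → P ∈ I := by
    intro P hP
    have h1 : Ideal.Quotient.liftₐ I (aeval (affine a fun _ => x) : PolyK K Unit N →ₐ[K] ℂ) hker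
        (Ideal.Quotient.mk I P) = 0 := hP
    have h2 := (map_eq_zero_iff _ hinj).1 h1
    exact Ideal.Quotient.eq_zero_iff_mem.1 h2
  have hloc : ∀ z : Pt N, z ∈ X → InChart a (fun _ : Unit => z) →
      (fun _ : Unit => z) ∈ Loc K (fun _ : Unit => x) := by
    intro z hz hza
    apply mem_Loc_of_aeval hxa hza
    intro P hP
    exact star P hP _ hz hza
  intro F hF
  have h1 : VanishesOn (toC F * MvPolynomial.X ((), a ())) (one X) := by
    intro p hp
    by_cases hpa : InChart a p
    · exact vanishes_mul_left (hloc (p ()) hp hpa F hF)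
    · exact vanishes_mul_right (vanishes_X_of_not_inChart hpa)
  rcases hirr _ _ h1 with h2 | h2
  · exact h2 _ hy
  · exfalso
    have h3 := h2 (fun _ => x) hx (fun _ => x.rep) (fun _ => isCoord_rep x)
    rw [eval_X] at h3
    exact rep_can x h3

end Generic

end Pool.Agent.N164.RP
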