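import Mathlib

/-!
# Ranks over subfields of `ℂ`
-/

set_option autoImplicit false

namespace Pool.Agent.N164.RP

open Set

/-- The subfield generated by `K` and `h`. -/
noncomputable def ext (K : Subfield ℂ) (h : Set ℂ) : Subfield ℂ := Subfield.closure (K ∪ h)

theorem le_ext (K : Subfield ℂ) (h : Set ℂ) : K ≤ ext K h := fun _ hx =>
  Subfield.subset_closure (Or.inl hx)

theorem subset_ext (K : Subfield ℂ) (h : Set ℂ) : h ⊆ ext K h := fun _ hx =>
  Subfield.subset_closure (Or.inr hx)

/-- The matroid of algebraic independence over `K`. -/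
noncomputable abbrev M (K : Subfield ℂ) : Matroid ℂ := AlgebraicIndependent.matroid K ℂ

theorem isAlgebraic_iff (K : Subfield ℂ) (s : Set ℂ) (a : ℂ) :
    IsAlgebraic (Algebra.adjoin K s) a ↔ IsAlgebraic (ext K s) a := by
  rw [← IntermediateField.isAlgebraic_adjoin_iff]
  have h : ext K s = (IntermediateField.adjoin K s).toSubfield := by
    unfold ext
    rw [IntermediateField.adjoin_toSubfield]
    congr 1
    ext x
    simp only [mem_union, mem_range, Subtype.exists, SetLike.mem_coe]
    constructor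
    · rintro (hx | hx)
      · exact Or.inl ⟨x, hx, rfl⟩
      · exact Or.inr hx
    · rintro (⟨y, hy, rfl⟩ | hx)
      · exact Or.inl hy
      · exact Or.inr hx
  rw [h]
  rfl

theorem ext_ext (K : Subfield ℂ) (h s : Set ℂ) : ext (ext K h) s = ext K (h ∪ s) := by
  apply le_antisymm
  · refine Subfield.closure_le.2 ?_
    rintro x (hx | hx)
    · exact Subfield.closure_mono (by
        rintro y (hy | hy)
        · exact Or.inl hy
        · exact Or.inr (Or.inl hy)) hx
    · exact subset_ext _ _ (Or.inr hx)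
  · refine Subfield.closure_le.2 ?_
    rintro x (hx | hx | hx)
    · exact le_ext _ _ (le_ext _ _ hx)
    · exact le_ext _ _ (subset_ext _ _ hx)
    · exact subset_ext _ _ hx

theorem mem_closure_iff {K : Subfield ℂ} {s : Set ℂ} {a : ℂ} :
    a ∈ (M K).closure s ↔ IsAlgebraic (ext K s) a := by
  rw [AlgebraicIndependent.matroid_closure_eq, ← isAlgebraic_iff]
  rfl

theorem closure_ext (K : Subfield ℂ) (h s : Set ℂ) :
    (M (ext K h)).closure s = (M K).closure (h ∪ s) := by
  ext a
  rw [mem_closure_iff, mem_closure_iff, ext_ext]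

/-- The rank over `K`. -/
noncomputable def rk (K : Subfield ℂ) (s : Set ℂ) : ℕ∞ := (M K).eRk s

theorem rk_mono {K : Subfield ℂ} {s t : Set ℂ} (h : s ⊆ t) : rk K s ≤ rk K t :=
  (M K).eRk_mono h

theorem rk_le_encard (K : Subfield ℂ) (s : Set ℂ) : rk K s ≤ s.encard := (M K).eRk_le_encard s

theorem rk_le_of_subset_closure {K : Subfield ℂ} {s t : Set ℂ} (h : s ⊆ (M K).closure t) :
    rk K s ≤ rk K t := by
  have := (M K).eRk_mono h
  rwa [Matroid.eRk_closure_eq] at this

/-- Subadditivity in towers. -/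
theorem rk_union_le (K : Subfield ℂ) (h s : Set ℂ) : rk K (h ∪ s) ≤ rk K h + rk (ext K h) s := by
  obtain ⟨g, hg⟩ := (M K).exists_isBasis h
  obtain ⟨t, ht⟩ := (M (ext K h)).exists_isBasis s
  have h1 : h ∪ s ⊆ (M K).closure (g ∪ t) := by
    have h3 : h ⊆ (M K).closure (g ∪ t) := by
      refine hg.subset_closure.trans ((M K).closure_subset_closure subset_union_left)
    have h2 : s ⊆ (M (ext K h)).closure t := ht.subset_closure
    rw [closure_ext] at h2
    refine union_subset h3 (h2.trans ?_)
    refine (M K).closure_subset_closure_of_subset_closure ?_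
    refine union_subset h3 ?_
    exact (M K).subset_closure_of_subset subset_union_right (by intro x _; trivial)
  have h2 := rk_le_of_subset_closure h1
  refine h2.trans ((rk_le_encard K _).trans ?_)
  refine (encard_union_le g t).trans ?_
  rw [hg.encard_eq_eRk, ht.encard_eq_eRk]
  rfl

/-- The main step of the induction: `s` are the coordinates of a point `x` of rank at most `d`, and
`u` the other coordinates. -/
theorem step {K : Subfield ℂ} {u s : Set ℂ} {n d : ℕ} (hd : 1 ≤ d) (hn : (n : ℕ∞) ≤ rk K (s ∪ u))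
    (hs : rk K s ≤ d) (hfin : s.Finite) :
    (d : ℕ∞) ≤ rk (ext K u) s ∨
      ∃ K' : Subfield ℂ, K ≤ K' ∧ rk K' s ≤ 1 ∧ (n : ℕ∞) ≤ rk K' u + (d - 1 : ℕ) := by
  classical
  by_cases h1 : (d : ℕ∞) ≤ rk (ext K u) s
  · exact Or.inl h1
  right
  have h1' : rk (ext K u) s ≤ (d - 1 : ℕ) := by
    rw [not_le] at h1
    have : rk (ext K u) s + 1 ≤ d := Order.add_one_le_of_lt h1
    have h3 : (d : ℕ∞) = ((d - 1 : ℕ) : ℕ∞) + 1 := by
      have : d = (d - 1) + 1 := by omega
      exact_mod_cast this
    rw [h3] at this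
    exact (ENat.add_le_add_iff_right (by simp)).1 this
  have h2 : (n : ℕ∞) ≤ rk K u + (d - 1 : ℕ) := by
    rw [union_comm] at hn
    exact hn.trans ((rk_union_le K u s).trans (by gcongr))
  obtain ⟨B, hB⟩ := (M K).exists_isBasis s
  have hBfin : B.Finite := hfin.subset hB.subset
  have hBd : B.encard ≤ d := by rw [hB.encard_eq_eRk]; exact hs
  rcases B.eq_empty_or_nonempty with h0 | ⟨b0, hb0⟩
  · refine ⟨K, le_rfl, ?_, h2⟩
    have : rk K s = B.encard := hB.encard_eq_eRk.symm
    rw [this, h0]
    simp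
  have key : ∀ b ∈ B, rk (ext K (B \ {b})) s ≤ 1 := by
    intro b hb
    have h3 : s ⊆ (M (ext K (B \ {b}))).closure {b} := by
      rw [closure_ext, sdiff_union_self, union_eq_self_of_subset_right (singleton_subset_iff.2 hb)]
      exact hB.subset_closure
    exact (rk_le_of_subset_closure h3).trans ((rk_le_encard _ _).trans (by simp))
  have hcard : ∀ b ∈ B, (B \ {b}).encard + 1 = B.encard := fun b hb =>
    encard_sdiff_singleton_add_one hb
  have hDs : rk K (s ∪ u) ≤ rk K (B ∪ u) := by
    apply rk_le_of_subset_closure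
    refine union_subset ?_ ((M K).subset_closure_of_subset subset_union_right
      (by intro x _; trivial))
    exact hB.subset_closure.trans ((M K).closure_subset_closure subset_union_left)
  by_cases h3 : ∃ b ∈ B, b ∈ (M K).closure (u ∪ (B \ {b}))
  · obtain ⟨b, hb, hbc⟩ := h3
    refine ⟨ext K (B \ {b}), le_ext _ _, key b hb, ?_⟩
    have h4 : rk K (B ∪ u) ≤ rk K ((B \ {b}) ∪ u) := by
      apply rk_le_of_subset_closure
      have h5 : (B \ {b}) ∪ u ⊆ (M K).closure ((B \ {b}) ∪ u) :=
        (M K).subset_closure _ (by intro x _; trivial)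
      rintro x (hx | hx)
      · by_cases hxb : x = b
        · rw [hxb, union_comm]; exact hbc
        · exact h5 (Or.inl ⟨hx, hxb⟩)
      · exact h5 (Or.inr hx)
    have h6 := rk_union_le K (B \ {b}) u
    have h7 : rk K (B \ {b}) ≤ (d - 1 : ℕ) := by
      refine (rk_le_encard _ _).trans ?_
      have := hcard b hb
      have h8 : (B \ {b}).encard + 1 ≤ ((d - 1 : ℕ) : ℕ∞) + 1 := by
        rw [this]
        have h9 : (d : ℕ∞) = ((d - 1 : ℕ) : ℕ∞) + 1 := by
          have : d = (d - 1) + 1 := by omega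
          exact_mod_cast this
        rw [← h9]
        exact hBd
      exact (ENat.add_le_add_iff_right (by simp)).1 h8
    calc (n : ℕ∞) ≤ rk K (s ∪ u) := hn
      _ ≤ rk K ((B \ {b}) ∪ u) := hDs.trans h4
      _ ≤ rk K (B \ {b}) + rk (ext K (B \ {b})) u := h6
      _ ≤ rk (ext K (B \ {b})) u + (d - 1 : ℕ) := by rw [add_comm]; gcongr
  · push Not at h3
    refine ⟨ext K (B \ {b0}), le_ext _ _, key b0 hb0, ?_⟩
    have hind : (M (ext K u)).Indep B := by
      rw [Matroid.indep_iff_forall_notMem_closure_sdiff (by intro x _; trivial)]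
      intro b hb
      rw [closure_ext]
      exact h3 b hb
    have h4 : B.encard ≤ (d - 1 : ℕ) := by
      have h5 : B.encard ≤ rk (ext K u) s := hind.encard_le_eRk_of_subset hB.subset
      exact h5.trans h1'
    have h6 := rk_union_le K (B \ {b0}) u
    have h7 : rk K (B ∪ u) ≤ rk K ((B \ {b0}) ∪ u) + 1 := by
      have h8 : B ∪ u = insert b0 ((B \ {b0}) ∪ u) := by
        ext x
        simp only [mem_union, mem_insert_iff, mem_sdiff, mem_singleton_iff]
        by_cases hx : x = b0
        · subst hx; simp [hb0]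
        · simp [hx]
      rw [h8]
      exact (M K).eRk_insert_le_add_one _ _
    calc (n : ℕ∞) ≤ rk K (s ∪ u) := hn
      _ ≤ rk K ((B \ {b0}) ∪ u) + 1 := hDs.trans h7
      _ ≤ rk K (B \ {b0}) + rk (ext K (B \ {b0})) u + 1 := by gcongr
      _ ≤ (B \ {b0}).encard + rk (ext K (B \ {b0})) u + 1 := by
          gcongr
          exact rk_le_encard _ _
      _ = rk (ext K (B \ {b0})) u + ((B \ {b0}).encard + 1) := by
          rw [add_comm (B \ {b0}).encard, add_assoc]
      _ = rk (ext K (B \ {b0})) u + B.encard := by rw [hcard b0 hb0]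
      _ ≤ rk (ext K (B \ {b0})) u + (d - 1 : ℕ) := by gcongr

end Pool.Agent.N164.RP
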