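import Pool.Agent.N164.RP.Defs
import Pool.Agent.N164.RP.Ext
import Pool.Agent.N164.RP.Rank

/-!
# Specializations of points of products of projective spaces
-/

set_option autoImplicit false

open MvPolynomial
open scoped LinearAlgebra.Projectivization

namespace Pool.Agent.N164.RP

variable {ι : Type} {N : ℕ}

theorem isCoord_iff {v : Fin (N + 1) → ℂ} {p : Pt N} :
    IsCoord v p ↔ ∃ c : ℂ, c ≠ 0 ∧ v = c • p.rep := by
  constructor
  · rintro ⟨h, hp⟩
    have h1 : Projectivization.mk ℂ v h = Projectivization.mk ℂ p.rep p.rep_nonzero := by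
      rw [hp, Projectivization.mk_rep]
    obtain ⟨c, hc⟩ := (Projectivization.mk_eq_mk_iff' ℂ _ _ _ _).1 h1
    refine ⟨c, ?_, hc.symm⟩
    rintro rfl
    apply h
    rw [← hc, zero_smul]
  · rintro ⟨c, hc, rfl⟩
    have h : c • p.rep ≠ 0 := smul_ne_zero hc p.rep_nonzero
    refine ⟨h, ?_⟩
    have h1 : Projectivization.mk ℂ (c • p.rep) h = Projectivization.mk ℂ p.rep p.rep_nonzero :=
      (Projectivization.mk_eq_mk_iff' ℂ _ _ _ _).2 ⟨c, rfl⟩
    rw [h1, Projectivization.mk_rep]

theorem isCoord_rep (p : Pt N) : IsCoord p.rep p := isCoord_iff.2 ⟨1, one_ne_zero, by simp⟩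

theorem isCoord_smul {v : Fin (N + 1) → ℂ} {p : Pt N} (h : IsCoord v p) {c : ℂ} (hc : c ≠ 0) :
    IsCoord (c • v) p := by
  obtain ⟨b, hb, rfl⟩ := isCoord_iff.1 h
  exact isCoord_iff.2 ⟨c * b, mul_ne_zero hc hb, by rw [smul_smul]⟩

/-- If all coordinates are scalar multiples of affine coordinates. -/
theorem isCoord_affine {a : ι → Fin (N + 1)} {p : ι → Pt N} (ha : InChart a p) (c : ι → ℂ)
    (hc : ∀ i, c i ≠ 0) (i : ι) : IsCoord (fun j => c i * affine a p (i, j)) (p i) := by
  refine isCoord_iff.2 ⟨c i * ((p i).rep (a i))⁻¹, mul_ne_zero (hc i) (inv_ne_zero (ha i)), ?_⟩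
  funext j
  simp only [affine, Pi.smul_apply, smul_eq_mul]
  field_simp

theorem affine_of_isCoord {a : ι → Fin (N + 1)} {p : ι → Pt N} {v : ι → Fin (N + 1) → ℂ}
    (hv : ∀ i, IsCoord (v i) (p i)) (s : ι × Fin (N + 1)) :
    v s.1 s.2 / v s.1 (a s.1) = affine a p s := by
  obtain ⟨c, hc, h⟩ := isCoord_iff.1 (hv s.1)
  rw [h]
  simp only [affine, Pi.smul_apply, smul_eq_mul]
  exact mul_div_mul_left _ _ hc

theorem ne_zero_of_isCoord {a : ι → Fin (N + 1)} {p : ι → Pt N} {v : ι → Fin (N + 1) → ℂ}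
    (hv : ∀ i, IsCoord (v i) (p i)) (ha : InChart a p) (i : ι) : v i (a i) ≠ 0 := by
  obtain ⟨c, hc, h⟩ := isCoord_iff.1 (hv i)
  rw [h]
  exact mul_ne_zero hc (ha i)

/-- Multihomogenization. -/
theorem homogenize [Fintype ι] [DecidableEq ι] {k : Type*} [Field k] [Algebra k ℂ]
    (a : ι → Fin (N + 1)) (P : MvPolynomial (ι × Fin (N + 1)) k) :
    ∃ (F : MvPolynomial (ι × Fin (N + 1)) k) (D : ℕ), ∀ v : ι → Fin (N + 1) → ℂ,
      (∀ i, v i (a i) ≠ 0) → aeval (fun s => v s.1 s.2) F =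
        (∏ i, v i (a i)) ^ D * aeval (fun s => v s.1 s.2 / v s.1 (a s.1)) P := by
  induction P using MvPolynomial.induction_on with
  | C c => exact ⟨C c, 0, fun v _ => by simp⟩
  | add P Q hP hQ =>
    obtain ⟨F, D, hF⟩ := hP
    obtain ⟨G, E, hG⟩ := hQ
    refine ⟨F * (∏ i, X (i, a i)) ^ E + G * (∏ i, X (i, a i)) ^ D, D + E, fun v hv => ?_⟩
    simp only [map_add, map_mul, map_pow, map_prod, aeval_X, hF v hv, hG v hv]
    ring
  | mul_X P s hP =>
    obtain ⟨F, D, hF⟩ := hP
    refine ⟨F * (X s * ∏ i ∈ Finset.univ.erase s.1, X (i, a i)), D + 1, fun v hv => ?_⟩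
    have h1 : (∏ i, v i (a i)) = v s.1 (a s.1) * ∏ i ∈ Finset.univ.erase s.1, v i (a i) :=
      (Finset.mul_prod_erase _ _ (Finset.mem_univ _)).symm
    simp only [map_mul, map_prod, aeval_X, hF v hv]
    rw [pow_succ, h1]
    have h2 := hv s.1
    field_simp

/-- Polynomials over a subfield. -/
abbrev PolyK (K : Subfield ℂ) (ι : Type) (N : ℕ) : Type := MvPolynomial (ι × Fin (N + 1)) K

/-- The polynomial with the coefficients in `ℂ`. -/
noncomputable abbrev toC {K : Subfield ℂ} (F : PolyK K ι N) : Poly ι N :=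
  MvPolynomial.map (algebraMap K ℂ) F

theorem eval_toC {K : Subfield ℂ} (F : PolyK K ι N) (v : ι × Fin (N + 1) → ℂ) :
    eval v (toC F) = aeval v F := by
  rw [toC, eval_map, aeval_def]

/-- The points which are specializations of `p` over `K`. -/
def Loc (K : Subfield ℂ) (p : ι → Pt N) : Set (ι → Pt N) :=
  {q | ∀ F : PolyK K ι N, Vanishes (toC F) p → Vanishes (toC F) q}

theorem self_mem_Loc (K : Subfield ℂ) (p : ι → Pt N) : p ∈ Loc K p := fun _ h => h

theorem Loc_mono {K K' : Subfield ℂ} (h : K ≤ K') (p : ι → Pt N) : Loc K' p ⊆ Loc K p := by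
  intro q hq F hF
  have h1 : toC F = toC (MvPolynomial.map (Subfield.inclusion h) F) := by
    rw [toC, toC, map_map]
    rfl
  rw [h1] at hF ⊢
  exact hq _ hF

theorem isClosedSet_Loc (K : Subfield ℂ) (p : ι → Pt N) : IsClosedSet (Loc K p) := by
  refine ⟨{G | ∃ F : PolyK K ι N, G = toC F ∧ Vanishes (toC F) p}, ?_⟩
  ext q
  constructor
  · rintro hq _ ⟨F, rfl, hF⟩
    exact hq F hF
  · intro hq F hF
    exact hq _ ⟨F, rfl, hF⟩

/-- `F` vanishes at `p` in terms of a chart. -/
theorem vanishes_of_aeval [Fintype ι] [DecidableEq ι] {K : Subfield ℂ} {a : ι → Fin (N + 1)}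
    (P : PolyK K ι N) : ∃ F : PolyK K ι N, ∀ p : ι → Pt N, InChart a p →
      (Vanishes (toC F) p ↔ aeval (affine a p) P = 0) := by
  obtain ⟨F, D, hF⟩ := homogenize a P
  refine ⟨F, fun p hp => ⟨fun h => ?_, fun h v hv => ?_⟩⟩
  · have h1 := h (fun i => (p i).rep) (fun i => isCoord_rep _)
    rw [eval_toC, hF (fun i => (p i).rep) hp] at h1
    have h2 : (∏ i, (p i).rep (a i)) ^ D ≠ 0 := pow_ne_zero _ (Finset.prod_ne_zero_iff.2
      fun i _ => hp i)
    exact (mul_eq_zero.1 h1).resolve_left h2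
  · rw [eval_toC, hF v (ne_zero_of_isCoord hv hp)]
    have h3 : (fun s : ι × Fin (N + 1) => v s.1 s.2 / v s.1 (a s.1)) = affine a p :=
      funext fun s => affine_of_isCoord hv s
    rw [h3, h, mul_zero]

theorem inChart_of_mem_Loc {K : Subfield ℂ} {a : ι → Fin (N + 1)} {p q : ι → Pt N}
    (h : q ∈ Loc K p) (hq : InChart a q) : InChart a p := by
  intro i hi
  apply hq i
  have h1 : Vanishes (toC (X (i, a i) : PolyK K ι N)) p := by
    intro v hv
    obtain ⟨c, hc, h2⟩ := isCoord_iff.1 (hv i)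
    rw [eval_toC, aeval_X, h2]
    simp [hi]
  have h2 := h _ h1 (fun i => (q i).rep) (fun i => isCoord_rep _)
  rw [eval_toC, aeval_X] at h2
  exact h2

theorem aeval_of_mem_Loc [Fintype ι] [DecidableEq ι] {K : Subfield ℂ} {a : ι → Fin (N + 1)}
    {p q : ι → Pt N} (h : q ∈ Loc K p) (hq : InChart a q) (P : PolyK K ι N)
    (hP : aeval (affine a p) P = 0) : aeval (affine a q) P = 0 := by
  obtain ⟨F, hF⟩ := vanishes_of_aeval (a := a) P
  exact (hF q hq).1 (h F ((hF p (inChart_of_mem_Loc h hq)).2 hP))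

/-- Scaling of the variables. -/
noncomputable def scale (K : Subfield ℂ) (ι : Type) (N : ℕ) :
    PolyK K ι N →ₐ[K] MvPolynomial ι (PolyK K ι N) :=
  aeval fun s => C (X s) * X s.1

theorem scale_C {K : Subfield ℂ} (k : K) :
    scale K ι N (C k) = C (C k) := by
  rw [scale, aeval_C]
  rfl

theorem scale_X {K : Subfield ℂ} (s : ι × Fin (N + 1)) :
    scale K ι N (X s) = C (X s) * X s.1 := by
  rw [scale, aeval_X]

theorem eval_scale {K : Subfield ℂ} (F : PolyK K ι N) (c : ι × Fin (N + 1) → ℂ) (l : ι → ℂ) :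
    eval l (MvPolynomial.map (aeval c : PolyK K ι N →ₐ[K] ℂ).toRingHom (scale K ι N F)) =
      aeval (fun s => l s.1 * c s) F := by
  induction F using MvPolynomial.induction_on with
  | C k =>
    rw [scale_C, map_C, eval_C, aeval_C]
    exact aeval_C _ _
  | add P Q hP hQ =>
    rw [map_add (scale K ι N), map_add (MvPolynomial.map _), map_add (eval l), hP, hQ,
      map_add (aeval _)]
  | mul_X P s hP =>
    rw [map_mul (scale K ι N), map_mul (MvPolynomial.map _), map_mul (eval l), hP,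
      map_mul (aeval _), scale_X, map_mul (MvPolynomial.map _), map_mul (eval l), map_C, eval_C,
      map_X, eval_X, aeval_X]
    congr 1
    rw [mul_comm]
    congr 1
    exact aeval_X _ _

theorem eq_zero_of_eval_units {R : Type} [CommRing R] [IsDomain R] [Infinite R] [Finite ι]
    (G : MvPolynomial ι R)
    (h : ∀ l : ι → R, (∀ i, l i ≠ 0) → eval l G = 0) : G = 0 := by
  classical
  have := Fintype.ofFinite ι
  have h1 : G * ∏ i, X i = 0 := by
    apply MvPolynomial.funext
    intro l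
    rw [map_mul, map_prod, map_zero]
    by_cases hl : ∀ i, l i ≠ 0
    · rw [h l hl, zero_mul]
    · push Not at hl
      obtain ⟨i, hi⟩ := hl
      rw [Finset.prod_eq_zero (Finset.mem_univ i) (by rw [eval_X, hi]), mul_zero]
  rcases mul_eq_zero.1 h1 with h2 | h2
  · exact h2
  · exfalso
    rw [Finset.prod_eq_zero_iff] at h2
    obtain ⟨i, _, hi⟩ := h2
    exact X_ne_zero i hi

theorem coeff_scale_eq_zero [Finite ι] {K : Subfield ℂ} {a : ι → Fin (N + 1)} {p : ι → Pt N}
    (hp : InChart a p) (F : PolyK K ι N) (hF : Vanishes (toC F) p) (m : ι →₀ ℕ) :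
    aeval (affine a p) ((scale K ι N F).coeff m) = 0 := by
  have h1 : MvPolynomial.map (aeval (affine a p) : PolyK K ι N →ₐ[K] ℂ).toRingHom
      (scale K ι N F) = 0 := by
    apply eq_zero_of_eval_units
    intro l hl
    rw [eval_scale, ← eval_toC]
    exact hF (fun i j => l i * affine a p (i, j)) (isCoord_affine hp l hl)
  have h2 := congrArg (MvPolynomial.coeff m) h1
  rw [coeff_map, coeff_zero] at h2
  exact h2

/-- If `q` satisfies all the equations in affine coordinates, over `K`, of the set `W`, then also all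
the equations over `K` in homogeneous coordinates. -/
theorem vanishes_of_forall_aeval [Finite ι] {K : Subfield ℂ} {a : ι → Fin (N + 1)}
    {W : Set (ι → Pt N)} {q : ι → Pt N} (hW : ∀ p ∈ W, InChart a p) (hq : InChart a q)
    (h : ∀ P : PolyK K ι N, (∀ p ∈ W, aeval (affine a p) P = 0) → aeval (affine a q) P = 0)
    (F : PolyK K ι N) (hF : ∀ p ∈ W, Vanishes (toC F) p) : Vanishes (toC F) q := by
  intro v hv
  have h1 : MvPolynomial.map (aeval (affine a q) : PolyK K ι N →ₐ[K] ℂ).toRingHom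
      (scale K ι N F) = 0 := by
    ext m
    rw [coeff_map, coeff_zero]
    exact h _ (fun p hp => coeff_scale_eq_zero (hW p hp) F (hF p hp) m)
  have h2 := eval_scale F (affine a q) (fun i => v i (a i))
  rw [h1, map_zero] at h2
  rw [eval_toC, h2]
  congr 2
  funext s
  rw [← affine_of_isCoord hv s]
  have := ne_zero_of_isCoord hv hq s.1
  field_simp

theorem mem_Loc_of_aeval [Finite ι] {K : Subfield ℂ} {a : ι → Fin (N + 1)} {p q : ι → Pt N}
    (hp : InChart a p) (hq : InChart a q)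
    (h : ∀ P : PolyK K ι N, aeval (affine a p) P = 0 → aeval (affine a q) P = 0) :
    q ∈ Loc K p := by
  intro F hF
  refine vanishes_of_forall_aeval (W := {p}) ?_ hq ?_ F ?_
  · rintro _ rfl; exact hp
  · intro P hP; exact h P (hP p rfl)
  · rintro _ rfl; exact hF

end Pool.Agent.N164.RP
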