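import Pool.Agent.N164.RP.Irr

/-!
# The main induction
-/

set_option autoImplicit false

open MvPolynomial
open scoped LinearAlgebra.Projectivization

namespace Pool.Agent.N164.RP

variable {ι : Type} {N : ℕ}

/-! ### Products of polynomials and unions of closed sets -/

theorem vanishes_mul [Finite ι] {F G : Poly ι N} {p : ι → Pt N} (h : Vanishes (F * G) p) :
    Vanishes F p ∨ Vanishes G p := by
  let sc : Poly ι N →ₐ[ℂ] MvPolynomial ι ℂ := aeval fun s => C ((p s.1).rep s.2) * X s.1
  have hsc : ∀ (P : Poly ι N) (l : ι → ℂ),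
      eval l (sc P) = eval (fun s => l s.1 * (p s.1).rep s.2) P := by
    intro P l
    have h1 : (eval l).comp sc.toRingHom =
        (eval (fun s : ι × Fin (N + 1) => l s.1 * (p s.1).rep s.2)) := by
      apply MvPolynomial.ringHom_ext
      · intro c
        simp [sc, MvPolynomial.algebraMap_eq]
      · intro s
        simp [sc, mul_comm]
    exact congrArg (fun g : Poly ι N →+* ℂ => g P) h1
  have hv : ∀ l : ι → ℂ, (∀ i, l i ≠ 0) → ∀ i, IsCoord (fun j => l i * (p i).rep j) (p i) :=
    fun l hl i => isCoord_iff.2 ⟨l i, hl i, rfl⟩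
  have h1 : sc F * sc G = 0 := by
    apply eq_zero_of_eval_units
    intro l hl
    rw [← map_mul, hsc]
    exact h (fun i j => l i * (p i).rep j) (hv l hl)
  have h2 : ∀ P : Poly ι N, sc P = 0 → Vanishes P p := by
    intro P hP v hv
    choose c hc hvc using fun i => isCoord_iff.1 (hv i)
    have h3 := hsc P c
    rw [hP, map_zero] at h3
    rw [h3]
    congr 2
    funext s
    rw [hvc s.1]
    rfl
  rcases mul_eq_zero.1 h1 with h3 | h3
  · exact Or.inl (h2 F h3)
  · exact Or.inr (h2 G h3)

theorem IsClosedSet.union [Finite ι] {Z W : Set (ι → Pt N)} (hZ : IsClosedSet Z)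
    (hW : IsClosedSet W) : IsClosedSet (Z ∪ W) := by
  obtain ⟨S, hS⟩ := hZ
  obtain ⟨T, hT⟩ := hW
  refine ⟨{H | ∃ F ∈ S, ∃ G ∈ T, H = F * G}, ?_⟩
  ext p
  constructor
  · rintro (hp | hp)
    · rw [hS] at hp
      rintro _ ⟨F, hF, G, hG, rfl⟩ v hv
      rw [map_mul, hp F hF v hv, zero_mul]
    · rw [hT] at hp
      rintro _ ⟨F, hF, G, hG, rfl⟩ v hv
      rw [map_mul, hp G hG v hv, mul_zero]
  · intro hp
    by_contra hcon
    rw [Set.mem_union, not_or, hS, hT] at hcon
    obtain ⟨h1, h2⟩ := hcon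
    simp only [Set.mem_ofPred_eq, not_forall] at h1 h2
    obtain ⟨F, hF, hF'⟩ := h1
    obtain ⟨G, hG, hG'⟩ := h2
    rcases vanishes_mul (hp _ ⟨F, hF, G, hG, rfl⟩) with h3 | h3
    · exact hF' h3
    · exact hG' h3

/-- `C` is a closed subset of `X` of dimension at most one. -/
structure GoodCurve (X C : Set (Pt N)) : Prop where
  subset : C ⊆ X
  closed : IsClosedSet (one C)
  small : ∀ (a : Unit → Fin (N + 1)) (s : Finset (Unit × Fin (N + 1))), s.card = 2 →
    ∃ P : MvPolynomial s ℂ, P ≠ 0 ∧ ∀ p ∈ one C, InChart a p →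
      eval (fun t : s => affine a p t) P = 0

theorem GoodCurve.dim {X C : Set (Pt N)} (h : GoodCurve X C) : ¬ DimGE (one C) 2 := by
  rintro ⟨a, s, hs, hP⟩
  obtain ⟨P, hP0, h1⟩ := h.small a s hs
  obtain ⟨p, hp, hpa, h2⟩ := hP P hP0
  exact h2 (h1 p hp hpa)

theorem GoodCurve.empty (X : Set (Pt N)) : GoodCurve X (∅ : Set (Pt N)) where
  subset := Set.empty_subset _
  closed := by
    refine ⟨{1}, ?_⟩
    ext p
    constructor
    · intro h
      exact h.elim
    · intro h
      have h1 := h 1 rfl (fun i => (p i).rep) (fun i => isCoord_rep _)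
      rw [map_one] at h1
      exact absurd h1 one_ne_zero
  small := fun _ _ _ => ⟨1, one_ne_zero, fun _ hp _ => hp.elim⟩

theorem GoodCurve.union {X C D : Set (Pt N)} (hC : GoodCurve X C) (hD : GoodCurve X D) :
    GoodCurve X (C ∪ D) where
  subset := Set.union_subset hC.subset hD.subset
  closed := hC.closed.union hD.closed
  small := by
    intro a s hs
    obtain ⟨P, hP, h1⟩ := hC.small a s hs
    obtain ⟨Q, hQ, h2⟩ := hD.small a s hs
    refine ⟨P * Q, mul_ne_zero hP hQ, ?_⟩
    rintro p (hp | hp) hpa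
    · rw [map_mul, h1 p hp hpa, zero_mul]
    · rw [map_mul, h2 p hp hpa, mul_zero]

/-- The locus of a point of rank at most one. -/
theorem GoodCurve.loc {X : Set (Pt N)} {d : ℕ} {K : Subfield ℂ} (hK : Base X d K) {x : Pt N}
    (hx : x ∈ X) (hrk : rk K (E x) ≤ 1) :
    GoodCurve X {y | (fun _ : Unit => y) ∈ Loc K (fun _ : Unit => x)} where
  subset := fun _ hy => hK.closed hx hy
  closed := isClosedSet_Loc K (fun _ : Unit => x)
  small := by
    intro a s hs
    by_cases hxa : InChart a (fun _ : Unit => x)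
    · have h1 : ¬ AlgebraicIndependent K (fun t : s => affine a (fun _ : Unit => x) t) := by
        intro h2
        have h3 := card_le_rk h2
        have h4 := rk_affine_le (K := K) (a := a) (p := fun _ : Unit => x)
        rw [Et_unit] at h4
        have h5 := h3.trans (h4.trans hrk)
        rw [hs] at h5
        exact absurd h5 (by decide)
      rw [algebraicIndependent_iff] at h1
      push Not at h1
      obtain ⟨P, hP, hP0⟩ := h1
      refine ⟨MvPolynomial.map (algebraMap K ℂ) P, ?_, ?_⟩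
      · intro h0
        apply hP0
        apply MvPolynomial.map_injective _ (algebraMap K ℂ).injective
        rw [h0, map_zero]
      · intro p hp hpa
        have h2 := aeval_of_mem_Loc (K := K) (a := a) hp hpa (rename Subtype.val P) (by
          rw [aeval_rename]
          exact hP)
        rw [aeval_rename] at h2
        rw [eval_map, ← aeval_def]
        exact h2
    · refine ⟨1, one_ne_zero, fun p hp hpa => ?_⟩
      exact absurd (inChart_of_mem_Loc (K := K) hp hpa) hxa

/-! ### Tuples -/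

theorem inChart_unit_of_cons {m : ℕ} {y : Pt N} {u : Fin m → Pt N} {K : Subfield ℂ} {x : Pt N}
    {u' : Fin m → Pt N}
    (h : (Fin.cons y u' : Fin (m + 1) → Pt N) ∈ Loc K (Fin.cons x u : Fin (m + 1) → Pt N)) :
    (fun _ : Unit => y) ∈ Loc K (fun _ : Unit => x) := by
  intro F hF
  have hmap : ∀ v : Fin (m + 1) × Fin (N + 1) → ℂ,
      eval v (toC (rename (fun s : Unit × Fin (N + 1) => ((0 : Fin (m + 1)), s.2)) F)) =
        eval (fun s => v (0, s.2)) (toC F) := by
    intro v
    rw [eval_toC, eval_toC, aeval_rename]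
    rfl
  have h1 : Vanishes (toC (rename (fun s : Unit × Fin (N + 1) => ((0 : Fin (m + 1)), s.2)) F))
      (Fin.cons x u : Fin (m + 1) → Pt N) := by
    intro v hv
    rw [hmap (fun s => v s.1 s.2)]
    exact hF (fun _ => v 0) (fun _ => hv 0)
  have h2 := h _ h1
  intro w hw
  have h3 := h2 (Fin.cons (w ()) fun i => (u' i).rep) (by
    intro i
    refine Fin.cases ?_ (fun i => ?_) i
    · exact hw ()
    · exact isCoord_rep _)
  rw [hmap] at h3
  exact h3

theorem cons_mem_Loc {m : ℕ} {K : Subfield ℂ} {x y : Pt N} {u : Fin m → Pt N}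
    (h : (fun _ : Unit => y) ∈ Loc (ext K (Et u)) (fun _ : Unit => x)) :
    (Fin.cons y u : Fin (m + 1) → Pt N) ∈ Loc K (Fin.cons x u : Fin (m + 1) → Pt N) := by
  obtain ⟨b, hb⟩ := exists_index y
  have hyb : InChart (fun _ : Unit => b) (fun _ : Unit => y) := fun _ => hb
  have hxb : InChart (fun _ : Unit => b) (fun _ : Unit => x) := inChart_of_mem_Loc h hyb
  let a' : Fin (m + 1) → Fin (N + 1) := Fin.cons b fun i => can (u i)
  have hc : ∀ z : Pt N, InChart (fun _ : Unit => b) (fun _ : Unit => z) →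
      InChart a' (Fin.cons z u : Fin (m + 1) → Pt N) := by
    intro z hz i
    refine Fin.cases ?_ (fun i => ?_) i
    · exact hz ()
    · exact rep_can _
  have hmem : ∀ (i : Fin m) (j : Fin (N + 1)),
      affine (fun i => can (u i)) u (i, j) ∈ ext K (Et u) := fun i j =>
    subset_ext K _ (Set.mem_iUnion.2 ⟨i, ⟨((), j), rfl⟩⟩)
  let g : Fin (m + 1) × Fin (N + 1) → PolyK (ext K (Et u)) Unit N := fun s =>
    Fin.cases (motive := fun _ => PolyK (ext K (Et u)) Unit N) (X ((), s.2))
      (fun i => C ⟨_, hmem i s.2⟩) s.1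
  let G : PolyK K (Fin (m + 1)) N →+* PolyK (ext K (Et u)) Unit N :=
    eval₂Hom (C.comp (Subfield.inclusion (le_ext K (Et u)))) g
  have hG : ∀ (z : Pt N) (P : PolyK K (Fin (m + 1)) N),
      aeval (affine (fun _ : Unit => b) (fun _ : Unit => z)) (G P) =
        aeval (affine a' (Fin.cons z u : Fin (m + 1) → Pt N)) P := by
    intro z P
    have h1 : ((aeval (affine (fun _ : Unit => b) (fun _ : Unit => z)) :
        PolyK (ext K (Et u)) Unit N →ₐ[ext K (Et u)] ℂ).toRingHom).comp G =
        (aeval (affine a' (Fin.cons z u : Fin (m + 1) → Pt N)) :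
          PolyK K (Fin (m + 1)) N →ₐ[K] ℂ).toRingHom := by
      apply MvPolynomial.ringHom_ext
      · intro k
        have h2 : G (C k) = C (Subfield.inclusion (le_ext K (Et u)) k) := eval₂_C _ _ _
        change aeval _ (G (C k)) = aeval _ (C k)
        rw [h2, aeval_C, aeval_C]
        rfl
      · rintro ⟨i, j⟩
        have h2 : G (X (i, j)) = g (i, j) := eval₂_X _ _ _
        change aeval _ (G (X (i, j))) = aeval _ (X (i, j))
        rw [h2, aeval_X]
        refine Fin.cases ?_ (fun i => ?_) i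
        · exact aeval_X _ _
        · exact aeval_C _ _
    exact congrArg (fun g : PolyK K (Fin (m + 1)) N →+* ℂ => g P) h1
  apply mem_Loc_of_aeval (hc x hxb) (hc y hyb)
  intro P hP
  rw [← hG] at hP ⊢
  exact aeval_of_mem_Loc h hyb _ hP

/-! ### The induction -/

theorem main_induction {G : Type} [AddCommGroup G] (f : Pt N → G) {X : Set (Pt N)} {d : ℕ}
    (hd : 1 ≤ d) (hirr : ∀ F G : Poly Unit N, VanishesOn (F * G) (one X) →
      VanishesOn F (one X) ∨ VanishesOn G (one X)) :
    ∀ (m : ℕ) (a : Fin m → ℤ) (K : Subfield ℂ), Base X d K → ∀ (H : AddSubgroup G)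
      (p : Fin m → Pt N), (∀ i, p i ∈ X) → ((m * (d - 1) + 1 : ℕ) : ℕ∞) ≤ rk K (Et p) →
      (∀ q ∈ Loc K p, ∀ q' ∈ Loc K p, ∑ i, a i • (f (q i) - f (q' i)) ∈ H) →
      ∃ C, GoodCurve X C ∧ ∃ i, ∀ x ∈ X, ∀ y ∈ X,
        a i • (f x - f y) ∈ H ⊔ AddSubgroup.closure (f '' C) := by
  intro m
  induction m with
  | zero =>
    intro a K _ H p _ hrk _
    exfalso
    have h1 : Et p = ∅ := by
      simp [Et]
    rw [h1] at hrk
    have h2 := hrk.trans (rk_le_encard K ∅)
    rw [Set.encard_empty] at h2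
    simp at h2
  | succ m ih =>
    intro a K hK H p hpX hrk hH
    obtain ⟨x, u, rfl⟩ : ∃ (x : Pt N) (u : Fin m → Pt N), (Fin.cons x u : Fin (m + 1) → Pt N) = p :=
      ⟨p 0, Fin.tail p, Fin.cons_self_tail p⟩
    have hx : x ∈ X := hpX 0
    have hu : ∀ i, u i ∈ X := fun i => hpX i.succ
    rw [Et_cons] at hrk
    rcases step hd hrk (hK.rk_le hx) (finite_E x) with h1 | ⟨K', hKK', h1, h2⟩
    · refine ⟨∅, GoodCurve.empty X, 0, fun y hy y' hy' => ?_⟩
      have hgen : ∀ z ∈ X, (Fin.cons z u : Fin (m + 1) → Pt N) ∈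
          Loc K (Fin.cons x u : Fin (m + 1) → Pt N) := fun z hz =>
        cons_mem_Loc ((hK.mono (le_ext K (Et u))).generic hirr hx h1 hz)
      have h2 := hH _ (hgen y hy) _ (hgen y' hy')
      rw [Fin.sum_univ_succ] at h2
      simp only [Fin.cons_zero, Fin.cons_succ, sub_self, smul_zero, Finset.sum_const_zero,
        add_zero] at h2
      exact AddSubgroup.mem_sup_left h2
    · have hK' := hK.mono hKK'
      set C₁ : Set (Pt N) := {y | (fun _ : Unit => y) ∈ Loc K' (fun _ : Unit => x)} with hC₁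
      have hgood : GoodCurve X C₁ := GoodCurve.loc hK' hx h1
      have h3 : ((m * (d - 1) + 1 : ℕ) : ℕ∞) ≤ rk K' (Et u) := by
        have h4 : (((m + 1) * (d - 1) + 1 : ℕ) : ℕ∞) =
            ((m * (d - 1) + 1 : ℕ) : ℕ∞) + ((d - 1 : ℕ) : ℕ∞) := by
          have : (m + 1) * (d - 1) + 1 = (m * (d - 1) + 1) + (d - 1) := by ring
          exact_mod_cast this
        rw [h4] at h2
        exact (ENat.add_le_add_iff_right (by simp)).1 h2
      obtain ⟨C₂, hgood₂, i, hi⟩ := ih (fun i => a i.succ) K' hK'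
        (H ⊔ AddSubgroup.closure (f '' C₁)) u hu h3 (by
          intro q hq q' hq'
          obtain ⟨y, hy⟩ := exists_cons x u q hq
          obtain ⟨y', hy'⟩ := exists_cons x u q' hq'
          have h5 := hH _ (Loc_mono hKK' _ hy) _ (Loc_mono hKK' _ hy')
          rw [Fin.sum_univ_succ] at h5
          simp only [Fin.cons_zero, Fin.cons_succ] at h5
          have hyC : y ∈ C₁ := inChart_unit_of_cons hy
          have hyC' : y' ∈ C₁ := inChart_unit_of_cons hy'
          have h6 : a 0 • (f y - f y') ∈ AddSubgroup.closure (f '' C₁) :=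
            AddSubgroup.zsmul_mem _ (AddSubgroup.sub_mem _
              (AddSubgroup.subset_closure (Set.mem_image_of_mem f hyC))
              (AddSubgroup.subset_closure (Set.mem_image_of_mem f hyC'))) _
          have h7 : ∑ i, a (Fin.succ i) • (f (q i) - f (q' i)) =
              (a 0 • (f y - f y') + ∑ i, a (Fin.succ i) • (f (q i) - f (q' i))) -
                a 0 • (f y - f y') := by abel
          rw [h7]
          exact AddSubgroup.sub_mem _ (AddSubgroup.mem_sup_left h5) (AddSubgroup.mem_sup_right h6))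
      refine ⟨C₁ ∪ C₂, hgood.union hgood₂, i.succ, fun y hy y' hy' => ?_⟩
      have h5 := hi y hy y' hy'
      rw [Set.image_union, AddSubgroup.closure_union, ← sup_assoc]
      exact h5

end Pool.Agent.N164.RP
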